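import Pool.Agent.Helper70.JN.Cusp

/-! Theorem W+, part A, one place: a form with small value (helper70). -/

set_option autoImplicit false

namespace Pool.Agent.Helper70.JN

open Polynomial Pool.Agent.Helper71.JN

section
variable {Ω : Type} [Field Ω]

theorem v_pow_le {v : AbsoluteValue Ω ℝ} {a : Ω} {t : ℝ} (h : v a ≤ t) (n : ℕ) :
    v (a ^ n) ≤ t ^ n := by
  rw [map_pow]
  exact pow_le_pow_left₀ (v.nonneg a) h n

/-- ultrametric: the dominating term -/
theorem v_eq_of_lt {v : AbsoluteValue Ω ℝ} (hu : ∀ a b, v (a + b) ≤ max (v a) (v b)) {a b : Ω}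
    (h : v b < v a) : v (a + b) = v a := by
  apply le_antisymm
  · exact (hu a b).trans (max_le le_rfl h.le)
  · have h1 : a = (a + b) + (-b) := by ring
    have h2 := hu (a + b) (-b)
    rw [← h1, v.map_neg] at h2
    rcases le_max_iff.1 h2 with h3 | h3
    · exact h3
    · exact absurd h3 (not_le.2 h)

variable [CharZero Ω]

/-- values of polynomials at points of the valuation ring -/
theorem aeval_le (v : AbsoluteValue Ω ℝ) (hu : ∀ a b, v (a + b) ≤ max (v a) (v b))
    (hq : ∀ q : ℚ, q ≠ 0 → v (q : Ω) = 1) (d : Ω) (hd : v d ≤ 1) (p : ℚ[X]) :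
    v (aeval d p) ≤ 1 := by
  induction p using Polynomial.induction_on' with
  | add p q hp hq' =>
    rw [map_add]
    exact (hu _ _).trans (max_le hp hq')
  | monomial n a =>
    rw [aeval_monomial, map_mul]
    have h1 : v (algebraMap ℚ Ω a) ≤ 1 := by
      by_cases h0 : a = 0
      · rw [h0, map_zero, map_zero]
        exact zero_le_one
      · have := hq a h0
        rw [eq_ratCast]
        exact this.le
    calc v (algebraMap ℚ Ω a) * v (d ^ n) ≤ 1 * 1 := by
          refine mul_le_mul h1 ?_ (v.nonneg _) zero_le_one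
          have := v_pow_le hd n
          rwa [one_pow] at this
      _ = 1 := one_mul 1

theorem eval₂_le (v : AbsoluteValue Ω ℝ) (hu : ∀ a b, v (a + b) ≤ max (v a) (v b))
    (hq : ∀ q : ℚ, q ≠ 0 → v (q : Ω) = 1) (d u : Ω) (hd : v d ≤ 1) (hu1 : v u ≤ 1)
    (P : ℚ[X][X]) : v (P.eval₂ (aeval d : ℚ[X] →ₐ[ℚ] Ω).toRingHom u) ≤ 1 := by
  induction P using Polynomial.induction_on' with
  | add p q hp hq' =>
    rw [eval₂_add]
    exact (hu _ _).trans (max_le hp hq')
  | monomial n a =>
    rw [eval₂_monomial, map_mul]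
    have h1 : v ((aeval d : ℚ[X] →ₐ[ℚ] Ω).toRingHom a) ≤ 1 := aeval_le v hu hq d hd a
    calc v ((aeval d : ℚ[X] →ₐ[ℚ] Ω).toRingHom a) * v (u ^ n) ≤ 1 * 1 := by
          refine mul_le_mul h1 ?_ (v.nonneg _) zero_le_one
          have := v_pow_le hu1 n
          rwa [one_pow] at this
      _ = 1 := one_mul 1

/-- the form at one place, normalised coordinates -/
theorem locf1 (v : AbsoluteValue Ω ℝ) (hu : ∀ a b, v (a + b) ≤ max (v a) (v b))
    (hq : ∀ q : ℚ, q ≠ 0 → v (q : Ω) = 1) (hBIN : ST_BIN) (k : ℕ) (hk : 1 ≤ k) (θ : ℝ)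
    (hθ0 : 0 < θ) (hθ1 : θ < 1) (x y d : Ω) (hE : y ^ 2 = x ^ 3 + d) (hx : v (x - 1) ≤ θ)
    (hd : v d < 1) (hy : v (y - 1) < 1) :
    ∃ c : Fin k → Ω, (∀ j, ∃ a b : ℚ[X], aeval d b ≠ 0 ∧ c j = aeval d a / aeval d b) ∧
      v (em x y (k + 1) + ∑ j : Fin k, c j * em x y (wt j)) ≤ θ ^ k := by
  -- the truncation
  set m : ℝ := max θ (v d) with hm
  have hm0 : 0 ≤ m := le_max_of_le_left hθ0.le
  have hm1 : m < 1 := max_lt hθ1 hd
  obtain ⟨K0, hK0⟩ := exists_pow_lt_of_lt_one (pow_pos hθ0 k) hm1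
  set K : ℕ := max k K0 with hK
  have hKk : k ≤ K := le_max_left _ _
  have hmK : m ^ K ≤ θ ^ k :=
    (pow_le_pow_of_le_one hm0 hm1.le (le_max_right _ _)).trans hK0.le
  obtain ⟨p, -, hp0, -, ⟨u, hpu⟩, -⟩ := hBIN 2 K (by norm_num) (by omega)
  obtain ⟨c, e, he, hX⟩ := cusp k K hk hKk p u hp0 hpu
  -- evaluation
  set φ : ℚ[X] →ₐ[ℚ] Ω := aeval d with hφ
  set ψ : ℚ[X][X] →+* Ω := eval₂RingHom φ.toRingHom (x - 1) with hψ
  have hφle : ∀ a, v (φ a) ≤ 1 := aeval_le v hu hq d hd.le
  have hψle : ∀ P, v (ψ P) ≤ 1 := eval₂_le v hu hq d (x - 1) hd.le (hx.trans hθ1.le)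
  have hψC : ∀ a, ψ (C a) = φ a := fun a => by simp [hψ]
  have hψX : ψ (1 + X) = x := by simp [hψ]
  have hφX : φ X = d := by simp [hφ]
  -- the unit
  have he1 : v (φ e) = 1 := by
    have h1 : e = C (e.coeff 0) + X * divX e := by
      conv_lhs => rw [← divX_mul_X_add e]
      ring
    have h2 : φ e = ((e.coeff 0 : ℚ) : Ω) + d * φ (divX e) := by
      conv_lhs => rw [h1]
      rw [map_add, map_mul, hφX]
      congr 1
      simp [hφ]
    rw [h2, v_eq_of_lt hu, hq _ he]
    rw [hq _ he, map_mul]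
    calc v d * v (φ (divX e)) ≤ v d * 1 := mul_le_mul_of_nonneg_left (hφle _) (v.nonneg _)
      _ < 1 := by rw [mul_one]; exact hd
  have he0 : φ e ≠ 0 := by
    intro h
    rw [h, map_zero] at he1
    exact zero_ne_one he1
  -- the square root
  set n : Ω := x ^ 3 + d - 1 with hn
  have hψV : ψ (VE (X : ℚ[X])) = n := by
    unfold VE
    rw [map_sub, map_add, map_pow, hψX, hψC, hφX, map_one]
  have hψY : ψ (aeval (VE (X : ℚ[X])) p) = aeval n p := by
    have h1 : (ψ.comp (algebraMap ℚ ℚ[X][X])) = algebraMap ℚ Ω := RingHom.ext_rat _ _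
    rw [aeval_def, hom_eval₂, hψV, h1, ← aeval_def]
  have hvn : v n ≤ m := by
    have h1 : n = ((x - 1) * ((x - 1) ^ 2 + (3 : ℚ) * (x - 1) + (3 : ℚ))) + d := by
      rw [hn]
      push_cast
      ring
    rw [h1]
    refine (hu _ _).trans (max_le_max ?_ le_rfl)
    rw [map_mul]
    have h2 : v ((x - 1) ^ 2 + ((3 : ℚ) : Ω) * (x - 1) + ((3 : ℚ) : Ω)) ≤ 1 := by
      refine (hu _ _).trans (max_le ((hu _ _).trans (max_le ?_ ?_)) (hq 3 (by norm_num)).le)
      · have := v_pow_le (hx.trans hθ1.le) 2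
        rwa [one_pow] at this
      · rw [map_mul, hq 3 (by norm_num), one_mul]
        exact hx.trans hθ1.le
    calc v (x - 1) * _ ≤ θ * 1 := mul_le_mul hx h2 (v.nonneg _) hθ0.le
      _ = θ := mul_one θ
  have hyn : y ^ 2 = 1 + n := by
    rw [hE, hn]
    ring
  have hτ : v (aeval n p - y) ≤ θ ^ k := by
    have h1 : (aeval n p - y) * (aeval n p + y) = n ^ K * aeval n u := by
      have h2 := congrArg (aeval n) hpu
      rw [map_sub, map_pow, map_add, map_one, aeval_X, map_mul, map_pow, aeval_X] at h2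
      rw [← h2, ← hyn]
      ring
    have h2 : v (aeval n p + y) = 1 := by
      have h3 : p = C (p.coeff 0) + X * divX p := by
        conv_lhs => rw [← divX_mul_X_add p]
        ring
      have h4 : aeval n p = 1 + n * aeval n (divX p) := by
        conv_lhs => rw [h3, hp0]
        simp
      have h5 : aeval n p + y = ((2 : ℚ) : Ω) + (n * aeval n (divX p) + (y - 1)) := by
        rw [h4]
        push_cast
        ring
      rw [h5, v_eq_of_lt hu, hq 2 (by norm_num)]
      rw [hq 2 (by norm_num)]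
      refine lt_of_le_of_lt (hu _ _) (max_lt ?_ hy)
      rw [map_mul]
      calc v n * v (aeval n (divX p)) ≤ m * 1 := mul_le_mul hvn
            (aeval_le v hu hq n (hvn.trans hm1.le) _) (v.nonneg _) hm0
        _ < 1 := by rw [mul_one]; exact hm1
    have h3 : v (aeval n p - y) = v (n ^ K * aeval n u) := by
      rw [← h1, map_mul, h2, mul_one]
    rw [h3, map_mul]
    calc v (n ^ K) * v (aeval n u) ≤ m ^ K * 1 := mul_le_mul (v_pow_le hvn K)
          (aeval_le v hu hq n (hvn.trans hm1.le) _) (v.nonneg _) (pow_nonneg hm0 _)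
      _ ≤ θ ^ k := by rw [mul_one]; exact hmK
  -- the monomials
  have hx1 : v x ≤ 1 := by
    have h1 : x = ((1 : ℚ) : Ω) + (x - 1) := by
      push_cast
      ring
    rw [h1]
    exact (hu _ _).trans (max_le (hq 1 one_ne_zero).le (hx.trans hθ1.le))
  have hem : ∀ W, v (em x (aeval n p) W - em x y W) ≤ θ ^ k := by
    intro W
    unfold em
    split_ifs
    · rw [sub_self, map_zero]
      positivity
    · rw [← mul_sub, map_mul]
      calc v (x ^ ((W - 3) / 2)) * v (aeval n p - y) ≤ 1 * θ ^ k := by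
            refine mul_le_mul ?_ hτ (v.nonneg _) zero_le_one
            have := v_pow_le hx1 ((W - 3) / 2)
            rwa [one_pow] at this
        _ = θ ^ k := one_mul _
  have hψE : ∀ W, ψ (EE p (X : ℚ[X]) W) = em x (aeval n p) W := by
    intro W
    unfold EE
    rw [em_map ψ, hψX, hψY]
  -- the value of the combination
  obtain ⟨S, hS⟩ := hX
  have hval : φ e * em x (aeval n p) (k + 1) + ∑ j : Fin k, φ (c j) * em x (aeval n p) (wt j) =
      (x - 1) ^ k * ψ S := by
    have h1 := congrArg ψ hS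
    rw [map_add, map_sum, map_mul, map_mul, map_pow, hψC, hψE] at h1
    have h2 : ψ X = x - 1 := by simp [hψ]
    rw [h2] at h1
    rw [← h1, add_comm]
    congr 1
    refine Finset.sum_congr rfl fun j _ => ?_
    rw [map_mul, hψC, hψE]
  have hsmall : v (φ e * em x y (k + 1) + ∑ j : Fin k, φ (c j) * em x y (wt j)) ≤ θ ^ k := by
    have h1 : φ e * em x y (k + 1) + ∑ j : Fin k, φ (c j) * em x y (wt j) =
        (x - 1) ^ k * ψ S + (φ e * (em x y (k + 1) - em x (aeval n p) (k + 1)) +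
          ∑ j : Fin k, φ (c j) * (em x y (wt j) - em x (aeval n p) (wt j))) := by
      rw [← hval]
      simp only [mul_sub, Finset.sum_sub_distrib]
      ring
    have hsub : ∀ W, v (em x y W - em x (aeval n p) W) ≤ θ ^ k := by
      intro W
      rw [v.map_sub]
      exact hem W
    rw [h1]
    refine (hu _ _).trans (max_le ?_ ((hu _ _).trans (max_le ?_ ?_)))
    · rw [map_mul]
      calc v ((x - 1) ^ k) * v (ψ S) ≤ θ ^ k * 1 :=
            mul_le_mul (v_pow_le hx k) (hψle S) (v.nonneg _) (by positivity)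
        _ = θ ^ k := mul_one _
    · rw [map_mul]
      calc v (φ e) * v (em x y (k + 1) - em x (aeval n p) (k + 1)) ≤ 1 * θ ^ k :=
            mul_le_mul (hφle e) (hsub _) (v.nonneg _) zero_le_one
        _ = θ ^ k := one_mul _
    · refine Finset.sum_induction _ (fun z => v z ≤ θ ^ k)
        (fun a b ha hb => (hu a b).trans (max_le ha hb)) ?_ ?_
      · rw [map_zero]
        positivity
      · intro j _
        rw [map_mul]
        calc v (φ (c j)) * v (em x y (wt j) - em x (aeval n p) (wt j)) ≤ 1 * θ ^ k :=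
              mul_le_mul (hφle _) (hsub _) (v.nonneg _) zero_le_one
          _ = θ ^ k := one_mul _
  refine ⟨fun j => φ (c j) / φ e, fun j => ⟨c j, e, he0, rfl⟩, ?_⟩
  have h1 : em x y (k + 1) + ∑ j : Fin k, φ (c j) / φ e * em x y (wt j) =
      (φ e * em x y (k + 1) + ∑ j : Fin k, φ (c j) * em x y (wt j)) / φ e := by
    rw [add_div, mul_div_cancel_left₀ _ he0, Finset.sum_div]
    congr 1
    refine Finset.sum_congr rfl fun j _ => ?_
    ring
  rw [h1, map_div₀, he1, div_one]
  exact hsmall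

end

end Pool.Agent.Helper70.JN
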