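import Mathlib

/-! Project JN, part of row PRIM: the dimension of the space of the values of the polynomials in a
box (helper70). -/

set_option autoImplicit false

namespace Pool.Agent.Helper70.JN

open Finset Submodule MvPolynomial

section
variable {F : Type} [Field F] {s : ℕ}

/-- exponents in a box -/
def bs (L : Fin s → ℕ) : Set (Fin s →₀ ℕ) := {m | ∀ j, m j < L j}

theorem mem_bs_iff {Q : MvPolynomial (Fin s) F} (hQ : Q ≠ 0) (L : Fin s → ℕ) :
    Q ∈ restrictSupport F (bs L) ↔ ∀ j, Q.degreeOf j < L j := by
  rw [mem_restrictSupport_iff]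
  obtain ⟨m0, hm0⟩ := MvPolynomial.support_nonempty.2 hQ
  constructor
  · intro h j
    have hj : 0 < L j := lt_of_le_of_lt (Nat.zero_le _) (h hm0 j)
    rw [degreeOf_lt_iff hj]
    intro m hm
    exact h hm j
  · intro h m hm j
    exact (degreeOf_lt_iff (lt_of_le_of_lt (Nat.zero_le _) (h j))).1 (h j) m hm

/-- the box as a type -/
noncomputable def bsEquiv (L : Fin s → ℕ) : bs L ≃ ((j : Fin s) → Fin (L j)) where
  toFun m := fun j => ⟨m.1 j, m.2 j⟩
  invFun f := ⟨Finsupp.equivFunOnFinite.symm fun j => (f j : ℕ), fun j => (f j).2⟩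
  left_inv m := by
    apply Subtype.ext
    ext j
    rfl
  right_inv f := by
    funext j
    rfl

theorem finrank_bs (L : Fin s → ℕ) :
    Module.finrank F (restrictSupport F (bs L)) = ∏ j, L j := by
  have : Fintype (bs L) := Fintype.ofEquiv _ (bsEquiv L).symm
  rw [Module.finrank_eq_card_basis (basisRestrictSupport F (bs L)),
    Fintype.card_congr (bsEquiv L)]
  simp

theorem finite_bs (L : Fin s → ℕ) : Module.Finite F (restrictSupport F (bs L)) := by
  have : Fintype (bs L) := Fintype.ofEquiv _ (bsEquiv L).symm
  exact Module.Finite.of_basis (basisRestrictSupport F (bs L))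

theorem finrank_box {Ω : Type} [Field Ω] [Algebra F Ω] (Phi : MvPolynomial (Fin s) F →ₐ[F] Ω)
    (a : MvPolynomial (Fin s) F) (ha : a ≠ 0) (h0 : Phi a = 0) (hd : ∀ Q, Phi Q = 0 → a ∣ Q)
    (L : Fin s → ℕ) (hL : ∀ j, a.degreeOf j ≤ L j) :
    Module.finrank F (Submodule.span F ((fun al : Fin s → ℕ =>
      Phi (MvPolynomial.monomial (Finsupp.equivFunOnFinite.symm al) 1)) '' {al | ∀ j, al j < L j}))
      = (∏ j, L j) - ∏ j, (L j - a.degreeOf j) := by
  classical
  set L' : Fin s → ℕ := fun j => L j - a.degreeOf j with hL'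
  have := finite_bs (F := F) L
  have := finite_bs (F := F) L'
  set f : restrictSupport F (bs L) →ₗ[F] Ω :=
    Phi.toLinearMap.comp (restrictSupport F (bs L)).subtype with hf
  have hrn := f.finrank_range_add_finrank_ker
  rw [finrank_bs] at hrn
  have hrange : LinearMap.range f = Submodule.span F ((fun al : Fin s → ℕ =>
      Phi (MvPolynomial.monomial (Finsupp.equivFunOnFinite.symm al) 1)) ''
        {al | ∀ j, al j < L j}) := by
    rw [hf, LinearMap.range_comp, Submodule.range_subtype, restrictSupport_eq_span,
      Submodule.map_span]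
    congr 1
    ext x
    constructor
    · rintro ⟨_, ⟨m, hm, rfl⟩, rfl⟩
      refine ⟨fun j => m j, hm, ?_⟩
      have e : Finsupp.equivFunOnFinite.symm (fun j => m j) = m := by
        ext j
        rfl
      show Phi _ = Phi _
      rw [e]
    · rintro ⟨al, hal, rfl⟩
      exact ⟨_, ⟨Finsupp.equivFunOnFinite.symm al, hal, rfl⟩, rfl⟩
  have hker : Module.finrank F (LinearMap.ker f) = ∏ j, L' j := by
    rw [← finrank_bs (F := F) L']
    -- multiplication by `a`
    have hmem : ∀ Q ∈ restrictSupport F (bs L'), a * Q ∈ restrictSupport F (bs L) := by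
      intro Q hQ
      by_cases hQ0 : Q = 0
      · rw [hQ0, mul_zero]
        exact zero_mem _
      · rw [mem_bs_iff (mul_ne_zero ha hQ0)]
        rw [mem_bs_iff hQ0] at hQ
        intro j
        rw [degreeOf_mul_eq ha hQ0]
        have h1 := hQ j
        have h2 := hL j
        simp only [hL'] at h1
        omega
    set g : restrictSupport F (bs L') →ₗ[F] restrictSupport F (bs L) :=
      ((LinearMap.mulLeft F a).comp (restrictSupport F (bs L')).subtype).codRestrict _
        (fun Q => hmem Q.1 Q.2) with hg
    have hginj : Function.Injective g := by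
      intro Q Q' h
      have h1 : a * Q.1 = a * Q'.1 := congrArg Subtype.val h
      exact Subtype.ext (mul_left_cancel₀ ha h1)
    have hgr : LinearMap.range g = LinearMap.ker f := by
      ext Q
      constructor
      · rintro ⟨Q', rfl⟩
        rw [LinearMap.mem_ker]
        show Phi (a * Q'.1) = 0
        rw [map_mul, h0, zero_mul]
      · intro hQ
        rw [LinearMap.mem_ker] at hQ
        have hQ' : Phi Q.1 = 0 := hQ
        obtain ⟨Q', hQQ⟩ := hd Q.1 hQ'
        have hQ'm : Q' ∈ restrictSupport F (bs L') := by
          by_cases h0' : Q' = 0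
          · rw [h0']
            exact zero_mem _
          · rw [mem_bs_iff h0']
            have h2 := Q.2
            rw [hQQ, mem_bs_iff (mul_ne_zero ha h0')] at h2
            intro j
            have h3 := h2 j
            rw [degreeOf_mul_eq ha h0'] at h3
            simp only [hL']
            omega
        exact ⟨⟨Q', hQ'm⟩, Subtype.ext hQQ.symm⟩
    rw [← hgr]
    exact LinearMap.finrank_range_of_inj hginj
  rw [← hrange]
  exact Nat.eq_sub_of_add_eq (by rw [← hrn, hker])

end

end Pool.Agent.Helper70.JN
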