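import Mathlib

/-! Project JOINT: the exchange lemma for ultrametric functions on vector spaces (helper70). -/

set_option autoImplicit false

namespace Pool.Agent.Helper70.JN

open Finset Submodule

/-- ultrametric size function on the nonzero vectors -/
structure Ult (k : Type*) {V : Type*} [Field k] [AddCommGroup V] [Module k V] (lam : V → ℝ) :
    Prop where
  smul : ∀ (c : k) (x : V), c ≠ 0 → x ≠ 0 → lam (c • x) = lam x
  add : ∀ x y : V, x ≠ 0 → y ≠ 0 → x + y ≠ 0 → lam (x + y) ≤ max (lam x) (lam y)

section
variable {k V : Type*} [Field k] [AddCommGroup V] [Module k V] {lam : V → ℝ}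

/-- the subspace of the vectors of size at most `t` -/
def Ult.fil (h : Ult k lam) (t : ℝ) : Submodule k V where
  carrier := {x | x = 0 ∨ lam x ≤ t}
  zero_mem' := Or.inl rfl
  add_mem' := by
    intro x y hx hy
    by_cases h0 : x = 0
    · subst h0; simpa using hy
    by_cases h1 : y = 0
    · subst h1; simpa using hx
    by_cases h2 : x + y = 0
    · exact Or.inl h2
    · right
      rcases hx with hx | hx
      · exact absurd hx h0
      rcases hy with hy | hy
      · exact absurd hy h1
      exact (h.add x y h0 h1 h2).trans (max_le hx hy)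
  smul_mem' := by
    intro c x hx
    by_cases h0 : x = 0
    · subst h0; left; simp
    by_cases h1 : c = 0
    · subst h1; left; simp
    rcases hx with hx | hx
    · exact absurd hx h0
    · right
      rw [h.smul c x h1 h0]
      exact hx

theorem Ult.mem_fil (h : Ult k lam) {t : ℝ} {x : V} : x ∈ h.fil t ↔ x = 0 ∨ lam x ≤ t := Iff.rfl

/-- the exchange lemma for a family indexed by `Fin n` with nondecreasing sizes -/
theorem greedy_fin (h : Ult k lam) {n : ℕ} (b : Fin n → V) (hb : LinearIndependent k b)
    (hmono : Monotone (fun i => lam (b i))) (V' : Submodule k V)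
    (hV : V' ≤ span k (Set.range b)) :
    ∃ (s : Finset (Fin n)) (w : Fin n → V), LinearIndependent k w ∧ (∀ i ∈ s, w i = b i) ∧
      (∀ i ∉ s, w i ∈ V' ∧ lam (w i) ≤ lam (b i)) ∧ V' = span k (w '' {i | i ∉ s}) ∧
      span k (Set.range w) = span k (Set.range b) := by
  classical
  set F : Fin n → Submodule k V := fun i => span k (b '' {j | j < i}) with hF
  set s : Finset (Fin n) := univ.filter (fun i => b i ∉ V' ⊔ F i) with hs
  -- choice of the vectors
  have hch : ∀ i, ∃ u ∈ F i, (i ∉ s → b i - u ∈ V') ∧ (i ∈ s → u = 0) := by
    intro i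
    by_cases hi : i ∈ s
    · exact ⟨0, zero_mem _, fun h' => absurd hi h', fun _ => rfl⟩
    · have : b i ∈ V' ⊔ F i := by
        by_contra hc
        exact hi (by simp [hs, hc])
      obtain ⟨y, hy, z, hz, hyz⟩ := Submodule.mem_sup.1 this
      refine ⟨z, hz, fun _ => ?_, fun h' => absurd h' hi⟩
      rw [← hyz]
      simpa using hy
  choose u huF huV hus using hch
  set w : Fin n → V := fun i => b i - u i with hw
  have hFle : ∀ i, F i ≤ h.fil (lam (b i)) := by
    intro i
    rw [hF]
    refine span_le.2 ?_
    rintro _ ⟨j, hj, rfl⟩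
    exact Or.inr (hmono (le_of_lt hj))
  have hbne : ∀ i, b i ≠ 0 := fun i => hb.ne_zero i
  -- triangularity
  have hspan : ∀ i : Fin n, span k (w '' {j | j < i}) = F i := by
    intro i
    obtain ⟨i, hi⟩ := i
    induction i with
    | zero =>
      have : {j : Fin n | j < (⟨0, hi⟩ : Fin n)} = ∅ := by
        ext j
        simp [Fin.lt_def]
      simp [hF, this]
    | succ i ih =>
      have hi' : i < n := by omega
      have e : {j : Fin n | j < (⟨i + 1, hi⟩ : Fin n)} = insert (⟨i, hi'⟩ : Fin n) {j | j < (⟨i, hi'⟩ : Fin n)} := by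
        ext j
        simp only [Set.mem_ofPred_eq, Set.mem_insert_iff, Fin.lt_def, Fin.ext_iff]
        omega
      have ihh := ih hi'
      have e1 : F ⟨i + 1, hi⟩ = span k {b ⟨i, hi'⟩} ⊔ F ⟨i, hi'⟩ := by
        simp only [hF]
        rw [e, Set.image_insert_eq, span_insert]
      rw [e1, e, Set.image_insert_eq, span_insert, ihh]
      have hu := huF ⟨i, hi'⟩
      apply le_antisymm
      · refine sup_le ?_ le_sup_right
        rw [span_singleton_le_iff_mem]
        exact sub_mem (mem_sup_left (mem_span_singleton_self _)) (mem_sup_right hu)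
      · refine sup_le ?_ le_sup_right
        rw [span_singleton_le_iff_mem]
        have : b ⟨i, hi'⟩ = w ⟨i, hi'⟩ + u ⟨i, hi'⟩ := by simp [hw]
        rw [this]
        exact add_mem (mem_sup_left (mem_span_singleton_self _)) (mem_sup_right hu)
  have hbF : ∀ i, b i ∉ F i := by
    intro i hi
    exact hb.notMem_span_image (s := {j | j < i}) (x := i) (by simp) hi
  have hwF : ∀ i, w i ∉ span k (w '' {j | j < i}) := by
    intro i hi
    rw [hspan i] at hi
    apply hbF i
    have : b i = w i + u i := by simp [hw]
    rw [this]
    exact add_mem hi (huF i)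
  have hwli : LinearIndependent k w := by
    rw [linearIndependent_iff']
    intro t g hg
    by_contra hcon
    push Not at hcon
    obtain ⟨i, hit, hgi⟩ := hcon
    -- the largest index with nonzero coefficient
    obtain ⟨i, hi, hmax⟩ := (t.filter (fun i => g i ≠ 0)).exists_max_image id ⟨i, by simp [hit, hgi]⟩
    simp only [mem_filter] at hi hmax
    apply hwF i
    have h1 : g i • w i = - ∑ j ∈ t.erase i, g j • w j := by
      rw [← Finset.add_sum_erase t _ hi.1] at hg
      exact eq_neg_of_add_eq_zero_left hg
    have h2 : g i • w i ∈ span k (w '' {j | j < i}) := by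
      rw [h1]
      refine neg_mem (sum_mem fun j hj => ?_)
      by_cases hgj : g j = 0
      · rw [hgj, zero_smul]
        exact zero_mem _
      · have hjt := (Finset.mem_erase.1 hj)
        have := hmax j ⟨hjt.2, hgj⟩
        exact smul_mem _ _ (subset_span ⟨j, lt_of_le_of_ne this hjt.1, rfl⟩)
    have h3 := smul_mem (span k (w '' {j | j < i})) (g i)⁻¹ h2
    rwa [smul_smul, inv_mul_cancel₀ hi.2, one_smul] at h3
  have hrange : span k (Set.range w) = span k (Set.range b) := by
    apply le_antisymm
    · refine span_le.2 ?_
      rintro _ ⟨i, rfl⟩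
      refine sub_mem (subset_span ⟨i, rfl⟩) ?_
      exact span_mono (Set.image_subset_range _ _) (huF i)
    · refine span_le.2 ?_
      rintro _ ⟨i, rfl⟩
      have e : b i = w i + u i := by simp [hw]
      have h1 : u i ∈ span k (Set.range w) := by
        have := huF i
        rw [← hspan i] at this
        exact span_mono (Set.image_subset_range _ _) this
      show b i ∈ span k (Set.range w)
      rw [e]
      exact add_mem (subset_span ⟨i, rfl⟩) h1
  refine ⟨s, w, hwli, ?_, ?_, ?_, hrange⟩
  · intro i hi
    simp [hw, hus i hi]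
  · intro i hi
    refine ⟨huV i hi, ?_⟩
    have h1 : w i ∈ h.fil (lam (b i)) := sub_mem (Or.inr le_rfl) (hFle i (huF i))
    rcases h1 with h1 | h1
    · exact absurd h1 (hwli.ne_zero i)
    · exact h1
  · -- the vectors `w i`, `i ∉ s`, span `V'`
    apply le_antisymm
    · intro x hx
      have hx' : x ∈ span k (Set.range w) := by rw [hrange]; exact hV hx
      obtain ⟨g, hg⟩ := (mem_span_range_iff_exists_fun k).1 hx'
      set y : V := ∑ i ∈ s, g i • w i with hy
      set z : V := ∑ i ∈ univ.filter (fun i => i ∉ s), g i • w i with hz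
      have hsum : x = y + z := by
        rw [← hg, hy, hz]
        have := (Finset.sum_filter_add_sum_filter_not (s := (univ : Finset (Fin n))) (p := fun i => i ∈ s) (f := fun i => g i • w i)).symm
        rw [this]
        rw [Finset.filter_mem_eq_inter, Finset.univ_inter]
      have hzS : z ∈ span k (w '' {i | i ∉ s}) := by
        rw [hz]
        exact sum_mem fun i hi => smul_mem _ _ (subset_span ⟨i, (mem_filter.1 hi).2, rfl⟩)
      have hzV : z ∈ V' := by
        rw [hz]
        exact sum_mem fun i hi => smul_mem _ _ (huV i (mem_filter.1 hi).2)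
      have hyV : y ∈ V' := by
        have : y = x - z := by rw [hsum]; simp
        rw [this]
        exact sub_mem hx hzV
      have hy0 : ∀ i ∈ s, g i = 0 := by
        by_contra hcon
        push Not at hcon
        obtain ⟨i, his, hgi⟩ := hcon
        obtain ⟨i, hi, hmax⟩ := (s.filter (fun i => g i ≠ 0)).exists_max_image id ⟨i, by simp [his, hgi]⟩
        simp only [mem_filter] at hi hmax
        have his : b i ∉ V' ⊔ F i := by
          have := hi.1
          rw [hs, mem_filter] at this
          exact this.2
        apply his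
        have h1 : g i • w i = y - ∑ j ∈ s.erase i, g j • w j := by
          rw [hy, ← Finset.add_sum_erase s _ hi.1]
          abel
        have h2 : g i • w i ∈ V' ⊔ F i := by
          rw [h1]
          refine sub_mem (mem_sup_left hyV) (sum_mem fun j hj => ?_)
          by_cases hgj : g j = 0
          · rw [hgj, zero_smul]
            exact zero_mem _
          · have hjt := (Finset.mem_erase.1 hj)
            have := hmax j ⟨hjt.2, hgj⟩
            refine smul_mem _ _ (mem_sup_right ?_)
            rw [← hspan i]
            exact subset_span ⟨j, lt_of_le_of_ne this hjt.1, rfl⟩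
        have h3 := smul_mem (V' ⊔ F i) (g i)⁻¹ h2
        rw [smul_smul, inv_mul_cancel₀ hi.2, one_smul] at h3
        have e : b i = w i + u i := by simp [hw]
        rw [e]
        exact add_mem h3 (mem_sup_right (huF i))
      have : y = 0 := by
        rw [hy]
        exact Finset.sum_eq_zero fun i hi => by rw [hy0 i hi, zero_smul]
      rw [hsum, this, zero_add]
      exact hzS
    · refine span_le.2 ?_
      rintro _ ⟨i, hi, rfl⟩
      exact huV i hi

/-- the exchange lemma -/
theorem greedy (h : Ult k lam) {ι : Type*} [Fintype ι] (b : ι → V) (hb : LinearIndependent k b)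
    (V' : Submodule k V) (hV : V' ≤ span k (Set.range b)) :
    ∃ (s : Finset ι) (w : ι → V), LinearIndependent k w ∧ (∀ i ∈ s, w i = b i) ∧
      (∀ i ∉ s, w i ∈ V' ∧ lam (w i) ≤ lam (b i)) ∧ V' = span k (w '' {i | i ∉ s}) ∧
      span k (Set.range w) = span k (Set.range b) := by
  classical
  set n := Fintype.card ι with hn
  let e0 : Fin n ≃ ι := (Fintype.equivFin ι).symm
  let e : Fin n ≃ ι := (Tuple.sort (fun i => lam (b (e0 i)))).trans e0
  have hm : Monotone (fun i => lam ((fun i => b (e i)) i)) :=
    Tuple.monotone_sort (fun i => lam (b (e0 i)))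
  have hr : Set.range (fun i => b (e i)) = Set.range b := by
    have := e.surjective.range_comp b
    exact this
  have hb' : LinearIndependent k (fun i => b (e i)) := hb.comp e e.injective
  obtain ⟨s, w, h1, h2, h3, h4, h5⟩ := greedy_fin h (fun i => b (e i)) hb' hm V' (by rw [hr]; exact hV)
  refine ⟨s.map e.toEmbedding, fun i => w (e.symm i), h1.comp _ e.symm.injective, ?_, ?_, ?_, ?_⟩
  · intro i hi
    obtain ⟨j, hj, rfl⟩ := Finset.mem_map.1 hi
    simpa using h2 j hj
  · intro i hi
    have hj : e.symm i ∉ s := by
      intro hc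
      exact hi (Finset.mem_map.2 ⟨e.symm i, hc, by simp⟩)
    have := h3 _ hj
    simpa using this
  · rw [h4]
    congr 1
    ext x
    simp only [Set.mem_image, Set.mem_ofPred_eq, Finset.mem_map, Equiv.coe_toEmbedding, not_exists,
      not_and]
    constructor
    · rintro ⟨j, hj, rfl⟩
      refine ⟨e j, ?_, by simp⟩
      intro l hl hle
      exact hj (e.injective hle ▸ hl)
    · rintro ⟨i, hi, rfl⟩
      refine ⟨e.symm i, ?_, rfl⟩
      intro hc
      exact hi _ hc (by simp)
  · have : Set.range (fun i => w (e.symm i)) = Set.range w := e.symm.surjective.range_comp w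
    rw [this, h5, hr]

end

end Pool.Agent.Helper70.JN
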