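import Pool.Agent.Helper71.JN.SheetD
import Pool.Agent.Helper47.JN.T1BJ
import Pool.Agent.Helper2.JN.T1CJ
import Pool.Agent.Helper94.SUBW.SLW

/-! Project JN, row T1U: the uniform theorem over a number field (helper70). -/

set_option autoImplicit false

namespace Pool.Agent.Helper70.JN

open Filter Finset Pool.Agent.Helper70.SUB Pool.Agent.Helper77.SUBK Pool.Agent.Helper70.SUBL
  Pool.Agent.Helper70.SUBW Pool.Agent.Helper71.JN

/-- the numerator -/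
noncomputable def tp {M : Type} [Field M] {t : ℕ}
    (b : (Fin t → ℤ) × (Fin t → ℤ) × (Fin t → M) × (Fin t → M) × ℤ × ℤ) : M :=
  ∑ i, (b.1 i : M) * b.2.2.1 i

/-- the denominator -/
noncomputable def tq {M : Type} [Field M] {t : ℕ}
    (b : (Fin t → ℤ) × (Fin t → ℤ) × (Fin t → M) × (Fin t → M) × ℤ × ℤ) : M :=
  ∑ i, (b.2.1 i : M) * b.2.2.2.1 i

/-- the size of `R` if `R ^ 3` is close to `y` -/
theorem sizeR {η : ℝ} (h0 : 0 < η) {X y : ℝ} {R : ℂ} (hX : 64 ≤ X)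
    (hd : |y ^ 2 - (X ^ 2) ^ 3| ≤ X ^ 2) (hy : ‖(y : ℂ) - R ^ 3‖ ≤ X ^ (3 / 2 - 2 * η)) :
    X / 4 ≤ ‖R‖ := by
  have Xp : 0 < X := by linarith
  by_contra hlt
  push Not at hlt
  have h1 : ‖R ^ 3‖ ≤ (X / 4) ^ 3 := by
    rw [norm_pow]
    exact pow_le_pow_left₀ (norm_nonneg _) hlt.le 3
  have h2 : X ^ (3 / 2 - 2 * η) ≤ X ^ 2 := by
    rw [← Real.rpow_natCast]
    exact Real.rpow_le_rpow_of_exponent_le (by linarith) (by push_cast; linarith)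
  have h3 : |y| ≤ X ^ 2 + (X / 4) ^ 3 := by
    have h4 : ‖(y : ℂ)‖ ≤ ‖(y : ℂ) - R ^ 3‖ + ‖R ^ 3‖ := by
      have h5 : (y : ℂ) = ((y : ℂ) - R ^ 3) + R ^ 3 := by ring
      conv_lhs => rw [h5]
      exact norm_add_le _ _
    rw [Complex.norm_real, Real.norm_eq_abs] at h4
    linarith
  have h5 : X ^ 2 + (X / 4) ^ 3 ≤ X ^ 3 / 16 := by
    have h6 : 64 * X ^ 2 ≤ X ^ 3 := by nlinarith [pow_pos Xp 2]
    have h7 : (X / 4) ^ 3 = X ^ 3 / 64 := by ring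
    rw [h7]
    have h8 := pow_pos Xp 3
    linarith
  have h6 : y ^ 2 ≤ (X ^ 3 / 16) ^ 2 := by
    rw [← sq_abs]
    exact pow_le_pow_left₀ (abs_nonneg _) (h3.trans h5) 2
  have h7 := (abs_le.1 hd).1
  have h8 : X ^ 2 ≤ X ^ 6 / 64 := by
    have h9 : 64 * X ^ 2 ≤ X ^ 3 := by nlinarith [pow_pos Xp 2]
    have h10 : X ^ 3 ≤ X ^ 6 := pow_le_pow_right₀ (by linarith) (by norm_num)
    have h11 : X ^ 3 * 64 ≤ X ^ 6 := by
      have : X ^ 6 = X ^ 3 * X ^ 3 := by ring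
      rw [this]
      have h12 : 64 ≤ X ^ 3 := by nlinarith [pow_pos Xp 2]
      exact mul_le_mul_of_nonneg_left h12 (by positivity)
    have h13 := pow_pos Xp 2
    linarith
  have h9 := pow_pos Xp 6
  nlinarith

theorem T1U (hEXTW : ST_EXTW) (hPFE : ST_PFE) (hSLW : ST_SLW) (hSPW : ST_SPW) (hSPH : ST_SPH)
    (hBRGK : ST_BRGK) : ST_T1U := by
  classical
  intro M _ _ _ S ψ ζ t ε η B hS hζ hε hη
  obtain ⟨P, hP⟩ := hPFE M S ψ hS
  by_contra hcon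
  obtain ⟨s, φ, hxt, hs, hκ⟩ := hEXTW
    ((Fin t → ℤ) × (Fin t → ℤ) × (Fin t → M) × (Fin t → M) × ℤ × ℤ)
    (fun κ b => (∀ i, SV S (b.2.2.1 i)) ∧ (∀ i, SV S (b.2.2.2.1 i)) ∧
      (∀ i, |(b.1 i : ℝ)| ≤ |(b.2.2.2.2.1 : ℝ)| ^ κ) ∧
      (∀ i, |(b.2.1 i : ℝ)| ≤ |(b.2.2.2.2.1 : ℝ)| ^ κ) ∧
      HBZ ψ (|(b.2.2.2.2.1 : ℝ)| ^ B) (tp b) ∧ HBZ ψ (|(b.2.2.2.2.1 : ℝ)| ^ B) (tq b) ∧
      tq b ≠ 0 ∧
      (‖(b.2.2.2.2.1 : ℂ) - ψ (tp b / tq b) ^ 2‖ ≤ |(b.2.2.2.2.1 : ℝ)| ^ (1 / 4 - η) ∨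
        ‖(b.2.2.2.2.2 : ℂ) - ψ (tp b / tq b) ^ 3‖ ≤ |(b.2.2.2.2.1 : ℝ)| ^ (3 / 4 - η)) ∧
      b.2.2.2.2.2 ^ 2 ≠ b.2.2.2.2.1 ^ 3)
    (fun b => b.2.2.2.2.1) (fun b => b.2.2.2.2.2 ^ 2 - b.2.2.2.2.1 ^ 3) ε hε
    (fun κ b hb => sub_ne_zero.2 hb.2.2.2.2.2.2.2.2)
    (by
      rintro ⟨κ, hκ, C, hC⟩
      exact hcon ⟨κ, hκ, C, fun c d a b x y h1 h2 h3 h4 h5 h6 h7 h8 h9 =>
        hC (c, d, a, b, x, y) ⟨h1, h2, h3, h4, h5, h6, h7, h8, h9⟩⟩)
  set c : Fin t → ℕ → ℤ := fun i j => (s j).1 i with hc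
  set d : Fin t → ℕ → ℤ := fun i j => (s j).2.1 i with hd
  set a : Fin t → ℕ → M := fun i j => (s j).2.2.1 i with ha
  set b : Fin t → ℕ → M := fun i j => (s j).2.2.2.1 i with hb
  set x : ℕ → ℤ := fun j => (s j).2.2.2.2.1 with hx
  set y : ℕ → ℤ := fun j => (s j).2.2.2.2.2 with hy
  set p : ℕ → M := fun j => ∑ i, (c i j : M) * a i j with hp
  set q : ℕ → M := fun j => ∑ i, (d i j : M) * b i j with hq
  have haS : ∀ i j, SV S (a i j) := fun i j => (hs j).1.1 i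
  have hbS : ∀ i j, SV S (b i j) := fun i j => (hs j).1.2.1 i
  have hcB : ∀ i j, |(c i j : ℝ)| ≤ |(x j : ℝ)| ^ (1 / ((j : ℝ) + 1)) :=
    fun i j => (hs j).1.2.2.1 i
  have hdB : ∀ i j, |(d i j : ℝ)| ≤ |(x j : ℝ)| ^ (1 / ((j : ℝ) + 1)) :=
    fun i j => (hs j).1.2.2.2.1 i
  have hpB : ∀ j, HBZ ψ (|(x j : ℝ)| ^ B) (p j) := fun j => (hs j).1.2.2.2.2.1
  have hqB : ∀ j, HBZ ψ (|(x j : ℝ)| ^ B) (q j) := fun j => (hs j).1.2.2.2.2.2.1
  have hq0 : ∀ j, q j ≠ 0 := fun j => (hs j).1.2.2.2.2.2.2.1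
  have halt : ∀ j, ‖(x j : ℂ) - ψ (p j / q j) ^ 2‖ ≤ |(x j : ℝ)| ^ (1 / 4 - η) ∨
      ‖(y j : ℂ) - ψ (p j / q j) ^ 3‖ ≤ |(x j : ℝ)| ^ (3 / 4 - η) :=
    fun j => (hs j).1.2.2.2.2.2.2.2.1
  have hne3 : ∀ j, y j ^ 2 ≠ x j ^ 3 := fun j => (hs j).1.2.2.2.2.2.2.2.2
  have hx1 : ∀ j, 1 ≤ |(x j : ℝ)| := fun j => (hs j).2.1
  have hdj : ∀ j, |((y j ^ 2 - x j ^ 3 : ℤ) : ℝ)| ≤ |(x j : ℝ)| ^ (1 / (2 + ε)) :=
    fun j => (hs j).2.2
  have hXt : Tendsto (fun j => |(x j : ℝ)|) (φ : Filter ℕ) atTop := hxt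
  -- the scale
  set X : ℕ → ℝ := fun j => Real.sqrt |(x j : ℝ)| with hXdef
  have hX2 : ∀ j, X j ^ 2 = |(x j : ℝ)| := fun j => Real.sq_sqrt (abs_nonneg _)
  have hXX : Tendsto X (φ : Filter ℕ) atTop := Real.tendsto_sqrt_atTop.comp hXt
  have hX0 : ∀ j, 0 < X j := fun j => Real.sqrt_pos.2 (by linarith [hx1 j])
  have hXp : ∀ (j : ℕ) (e : ℝ), |(x j : ℝ)| ^ e = X j ^ (2 * e) := by
    intro j e
    rw [← hX2 j, ← Real.rpow_natCast, ← Real.rpow_mul (hX0 j).le]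
    norm_num
  have hbig : ∀ a B : ℝ, 0 < a → ∀ᶠ j in (φ : Filter ℕ), B ≤ X j ^ a := fun a B ha =>
    ((tendsto_rpow_atTop ha).comp hXX).eventually_ge_atTop B
  have hXl : ∀ᶠ j in (φ : Filter ℕ), (64 : ℝ) ≤ X j := hXX.eventually_ge_atTop _
  -- slow coefficients
  obtain ⟨hconst, _, _, _, _, _, _, _, _, hint, _⟩ := hSLW M S P φ X hS hXX
  have hslow : ∀ e : ℕ → ℤ, (∀ j, |(e j : ℝ)| ≤ |(x j : ℝ)| ^ (1 / ((j : ℝ) + 1))) →
      Slw P φ X (fun j => (e j : M)) := by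
    intro e he
    refine hint e fun δ hδ => ?_
    filter_upwards [hκ (δ / 2) (by linarith)] with j hj
    refine (he j).trans ((Real.rpow_le_rpow_of_exponent_le (hx1 j) hj).trans (le_of_eq ?_))
    rw [hXp]
    congr 1
    ring
  -- moderate sums
  have hHB : ∀ z : ℕ → M, (∀ j, HBZ ψ (|(x j : ℝ)| ^ B) (z j)) →
      ∀ᶠ j in (φ : Filter ℕ), HB P (X j ^ (2 * B)) (z j) := by
    intro z hz
    refine Eventually.of_forall fun j v hv σ => ?_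
    rw [← hXp]
    refine Pool.Agent.Helper94.SUBW.SP_nv hS ?_ hv σ
    obtain ⟨⟨D, h1, h2, h3⟩, h4⟩ := hz j
    exact ⟨D, h1, h2, h3, fun τ => by rw [hP]; exact h4 τ⟩
  have hpM : SpM P φ X p := by
    refine hSPH M S P φ X p (2 * B) hS hXX ?_ (hHB p hpB)
    exact ⟨t, fun i j => (c i j : M), a, fun i => hslow _ (hcB i),
      fun i => Eventually.of_forall (haS i), Eventually.of_forall fun j => rfl⟩
  have hqM : SpM P φ X q := by
    refine hSPH M S P φ X q (2 * B) hS hXX ?_ (hHB q hqB)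
    exact ⟨t, fun i j => (d i j : M), b, fun i => hslow _ (hdB i),
      fun i => Eventually.of_forall (hbS i), Eventually.of_forall fun j => rfl⟩
  obtain ⟨_, _, _, _, _, hslSp, _, hSpop, _, _, _, _, _⟩ := hSPW M S P φ X hS hXX
  have hmulc : ∀ (e : M) (z : ℕ → M), SpM P φ X z → SpM P φ X (fun j => e * z j) :=
    fun e z hz => (hSpop (fun _ => e) z (hslSp _ (hconst e)) hz).2
  -- the sizes
  have hsz : ∀ᶠ j in (φ : Filter ℕ), (2 : ℝ) ≤ x j ∧ |(y j : ℝ) ^ 2 - (x j : ℝ) ^ 3| ≤ x j ∧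
      (x j : ℝ) ≤ (y j : ℝ) ^ 2 ∧ (y j : ℝ) ^ 2 ≤ (x j : ℝ) ^ 4 := by
    filter_upwards [hXt.eventually_ge_atTop 2] with j hj
    exact Pool.Agent.Helper2.SUBW.sizes hε hj (hdj j)
  have hζψ : ψ ζ ^ 2 + ψ ζ + 1 = 0 := by
    have h1 := congrArg ψ hζ
    rw [map_add, map_add, map_pow, map_one, map_zero] at h1
    exact h1
  rcases Ultrafilter.eventually_or.1 (Eventually.of_forall halt : ∀ᶠ j in (φ : Filter ℕ), _)
    with hal | hal
  · -- `x` is close to the square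
    set β : ℝ := max 0 (1 / 2 - 2 * η) with hβ
    have hβ0 : 0 ≤ β := le_max_left _ _
    have hβ1 : β < 1 / 2 := max_lt (by norm_num) (by linarith)
    have hb1 : ∀ᶠ j in (φ : Filter ℕ), ‖(x j : ℂ) - ψ (p j / q j) ^ 2‖ ≤ X j ^ β := by
      filter_upwards [hal, hXl] with j h1 h2
      rw [hXp] at h1
      exact h1.trans (Real.rpow_le_rpow_of_exponent_le (by linarith)
        (by rw [hβ]; exact le_max_of_le_right (by linarith)))
    have hor : ∀ᶠ j in (φ : Filter ℕ),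
        ‖(y j : ℂ) - ψ (p j / q j) ^ 3‖ ≤ X j ^ (5 / 2 : ℝ) ∨
          ‖(y j : ℂ) + ψ (p j / q j) ^ 3‖ ≤ X j ^ (5 / 2 : ℝ) := by
      filter_upwards [hb1, hXl] with j h1 h2
      refine Pool.Agent.Helper47.JN.pick h2 hβ1.le ?_ ?_ h1
      · rw [hX2]
        exact Complex.norm_intCast _
      · have h7 := hdj j
        rw [hXp] at h7
        have h8 : ((y j : ℂ) ^ 2 - (x j : ℂ) ^ 3) = ((y j ^ 2 - x j ^ 3 : ℤ) : ℂ) := by
          push_cast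
          rfl
        rw [h8, Complex.norm_intCast]
        refine h7.trans ?_
        calc X j ^ (2 * (1 / (2 + ε))) ≤ X j ^ (1 : ℝ) := by
              refine Real.rpow_le_rpow_of_exponent_le (by linarith) ?_
              rw [mul_one_div, div_le_one (by linarith)]
              linarith
          _ = X j := Real.rpow_one _
    have h52 : (3 - 1 / 2 : ℝ) = 5 / 2 := by norm_num
    rcases Ultrafilter.eventually_or.1 hor with h1 | h1
    · refine hBRGK M S P φ x y X p q β ε (1 / 2) hS hε hβ0 hβ1 (by norm_num) hXX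
        (Eventually.of_forall hX2) hpM hqM ?_
      filter_upwards [h1, hb1] with j h2 h3
      refine ⟨hq0 j, hne3 j, hdj j, ?_, ?_⟩
      · rw [hP, map_sub, map_pow, map_intCast]
        exact h3
      · rw [hP, map_sub, map_pow, map_intCast, h52]
        exact h2
    · refine hBRGK M S P φ x y X (fun j => -1 * p j) q β ε (1 / 2) hS hε hβ0 hβ1 (by norm_num)
        hXX (Eventually.of_forall hX2) (hmulc _ p hpM) hqM ?_
      filter_upwards [h1, hb1] with j h2 h3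
      refine ⟨hq0 j, hne3 j, hdj j, ?_, ?_⟩
      · have h4 : (-1 * p j / q j) ^ 2 = (p j / q j) ^ 2 := by ring
        rw [hP, h4, map_sub, map_pow, map_intCast]
        exact h3
      · have h4 : (-1 * p j / q j) ^ 3 = -(p j / q j) ^ 3 := by ring
        rw [hP, h4, map_sub, map_neg, map_pow, map_intCast, h52, sub_neg_eq_add]
        exact h2
  · -- `y` is close to the cube
    set η' : ℝ := min η (1 / 4) with hη'
    have hη0 : 0 < η' := lt_min hη (by norm_num)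
    have hη1 : η' ≤ η := min_le_left _ _
    have hη4 : η' ≤ 1 / 4 := min_le_right _ _
    have hdist : ∀ᶠ j in (φ : Filter ℕ), ‖((y j : ℝ) : ℂ) - ψ (p j / q j) ^ 3‖ ≤
        X j ^ (3 / 2 - 2 * η') := by
      filter_upwards [hal, hXl] with j h1 h2
      rw [hXp] at h1
      refine le_trans (le_of_eq ?_) (h1.trans (Real.rpow_le_rpow_of_exponent_le (by linarith)
        (by linarith)))
      push_cast
      rfl
    have hxX : ∀ᶠ j in (φ : Filter ℕ), (x j : ℝ) = X j ^ 2 := by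
      filter_upwards [hsz] with j h1
      rw [hX2, abs_of_nonneg (by linarith [h1.1])]
    have hRsz : ∀ᶠ j in (φ : Filter ℕ), X j / 4 ≤ ‖ψ (p j / q j)‖ := by
      filter_upwards [hsz, hdist, hXl, hxX] with j h1 h2 h3 h4
      have h5 := h1.2.1
      rw [h4] at h5
      exact sizeR hη0 h3 h5 h2
    have hana : ∀ᶠ j in (φ : Filter ℕ), ∃ i : Fin 3,
        ‖((x j : ℝ) : ℂ) - ψ ζ ^ (i : ℕ) * ψ (p j / q j) ^ 2‖ ≤ X j ^ (1 / 2 - η') := by
      filter_upwards [hsz, hRsz, hdist, hbig η' 6144 hη0, hXl, hxX] with j h1 h2 h3 h4 h5 h6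
      exact Pool.Agent.Helper2.JN.nearJ (ψ ζ) hζψ hη0 hη4 (by linarith) h4 h6 h1.2.1 h2 h3
    have hidx : ∀ j, ∃ i : Fin 3, (∃ i : Fin 3,
        ‖((x j : ℝ) : ℂ) - ψ ζ ^ (i : ℕ) * ψ (p j / q j) ^ 2‖ ≤ X j ^ (1 / 2 - η')) →
        ‖((x j : ℝ) : ℂ) - ψ ζ ^ (i : ℕ) * ψ (p j / q j) ^ 2‖ ≤ X j ^ (1 / 2 - η') := by
      intro j
      by_cases h : ∃ i : Fin 3,
          ‖((x j : ℝ) : ℂ) - ψ ζ ^ (i : ℕ) * ψ (p j / q j) ^ 2‖ ≤ X j ^ (1 / 2 - η')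
      · obtain ⟨i, hi⟩ := h
        exact ⟨i, fun _ => hi⟩
      · exact ⟨0, fun h' => absurd h' h⟩
    choose ι hι using hidx
    obtain ⟨i0, hi0⟩ := Pool.Agent.Helper2.SUBW.ucon φ ι
    have z3 : ζ ^ 3 = 1 := by linear_combination (ζ - 1) * hζ
    set z : M := ζ ^ (i0 : ℕ) with hz
    have zz : z ^ 3 = 1 := by rw [hz, ← pow_mul, mul_comm, pow_mul, z3, one_pow]
    refine hBRGK M S P φ x y X (fun j => z ^ 2 * p j) q (1 / 2 - η') ε 1 hS hε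
      (by linarith) (by linarith) one_pos hXX (Eventually.of_forall hX2) (hmulc _ p hpM) hqM ?_
    filter_upwards [hana, hi0, hdist, hXl] with j h1 h2 h4 h5
    have h6 := hι j h1
    rw [h2] at h6
    refine ⟨hq0 j, hne3 j, hdj j, ?_, ?_⟩
    · rw [hP]
      refine le_trans (le_of_eq ?_) h6
      congr 1
      have h7 : (z ^ 2 * p j / q j) ^ 2 = z * (p j / q j) ^ 2 := by
        have h8 : (z ^ 2 * p j / q j) ^ 2 = z ^ 3 * z * (p j / q j) ^ 2 := by ring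
        rw [h8, zz, one_mul]
      rw [h7, map_sub, map_mul, map_intCast, hz, map_pow, map_pow]
      push_cast
      rfl
    · have h7 : (z ^ 2 * p j / q j) ^ 3 = (p j / q j) ^ 3 := by
        have h8 : (z ^ 2 * p j / q j) ^ 3 = z ^ 3 * z ^ 3 * (p j / q j) ^ 3 := by ring
        rw [h8, zz, one_mul, one_mul]
      rw [hP, h7, map_sub, map_intCast, map_pow]
      have h8 : X j ^ (3 / 2 - 2 * η') ≤ X j ^ ((3 : ℝ) - 1) :=
        Real.rpow_le_rpow_of_exponent_le (by linarith) (by linarith)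
      refine le_trans (le_of_eq ?_) (h4.trans h8)
      push_cast
      rfl

end Pool.Agent.Helper70.JN
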