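import Pool.Agent.Helper70.JN.Greedy
import Pool.Agent.Helper71.JN.SheetB

/-! Project JN, row GSK: the generic Subspace theorem over the field generated by the units
(helper70). -/

set_option autoImplicit false

namespace Pool.Agent.Helper70.JN

open Pool.Agent.Helper71.JN Finset Submodule

section box
variable {F Ω : Type} [Field F] [Field Ω] [Algebra F Ω] {I : Type} [Fintype I] {r : ℕ}

/-- monomials with exponents in a box -/
noncomputable def bx (w : Fin r → Ω) (T : ℕ) (m : Fin r → Fin T) : Ω := ∏ j, w j ^ (m j : ℕ)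

/-- the space of the polynomials of partial degrees `< T` in the units -/
noncomputable def VV (D : SSF F Ω I r) (T : ℕ) : Submodule F Ω := span F (Set.range (bx D.w T))

variable (D : SSF F Ω I r)

theorem bx_mem (T : ℕ) (m : Fin r → Fin T) : bx D.w T m ∈ VV D T := subset_span ⟨m, rfl⟩

theorem VV_mono {a b : ℕ} (h : a ≤ b) : VV D a ≤ VV D b := by
  refine span_mono ?_
  rintro _ ⟨m, rfl⟩
  exact ⟨fun j => Fin.castLE h (m j), by simp [bx]⟩

theorem VV_mul_le (a b : ℕ) : VV D a * VV D b ≤ VV D (a + b) := by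
  unfold VV
  rw [span_mul_span]
  refine span_mono ?_
  rintro _ ⟨_, ⟨m, rfl⟩, _, ⟨m', rfl⟩, rfl⟩
  refine ⟨fun j => ⟨m j + m' j, by have := (m j).2; have := (m' j).2; omega⟩, ?_⟩
  simp only [bx]
  rw [← Finset.prod_mul_distrib]
  exact Finset.prod_congr rfl fun j _ => pow_add _ _ _

theorem VV_mul {a b : ℕ} {x y : Ω} (hx : x ∈ VV D a) (hy : y ∈ VV D b) : x * y ∈ VV D (a + b) :=
  VV_mul_le D a b (mul_mem_mul hx hy)

theorem one_mem_VV : (1 : Ω) ∈ VV D 1 := by
  have h := bx_mem D 1 (fun _ => 0)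
  have e : bx D.w 1 (fun _ => 0) = 1 := by simp [bx]
  rwa [e] at h

theorem w_mem_VV (k : Fin r) : D.w k ∈ VV D 2 := by
  classical
  have h := bx_mem D 2 (fun j => if j = k then 1 else 0)
  have e : bx D.w 2 (fun j => if j = k then 1 else 0) = D.w k := by
    unfold bx
    rw [Finset.prod_eq_single k]
    · simp
    · intro j _ hj
      simp [hj]
    · intro hk
      exact absurd (Finset.mem_univ k) hk
  rwa [e] at h

theorem VVS_mul {a b : ℕ} {S : Submodule F Ω} {x y : Ω} (hx : x ∈ VV D a)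
    (hy : y ∈ VV D b * S) : x * y ∈ VV D (a + b) * S := by
  have h : x * y ∈ VV D a * (VV D b * S) := mul_mem_mul hx hy
  rw [← mul_assoc] at h
  exact mul_le_mul' (VV_mul_le D a b) le_rfl h

theorem VVS_mono {a b : ℕ} (h : a ≤ b) (S : Submodule F Ω) : VV D a * S ≤ VV D b * S :=
  mul_le_mul' (VV_mono D h) le_rfl

theorem adj_mem {x : Ω} (hx : x ∈ Algebra.adjoin F (Set.range D.w)) : ∃ a, x ∈ VV D a := by
  induction hx using Algebra.adjoin_induction with
  | mem x hx =>
    obtain ⟨k, rfl⟩ := hx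
    exact ⟨2, w_mem_VV D k⟩
  | algebraMap c =>
    refine ⟨1, ?_⟩
    rw [Algebra.algebraMap_eq_smul_one]
    exact smul_mem _ _ (one_mem_VV D)
  | add x y _ _ hx hy =>
    obtain ⟨a, ha⟩ := hx
    obtain ⟨b, hb⟩ := hy
    exact ⟨a + b, add_mem (VV_mono D (by omega) ha) (VV_mono D (by omega) hb)⟩
  | mul x y _ _ hx hy =>
    obtain ⟨a, ha⟩ := hx
    obtain ⟨b, hb⟩ := hy
    exact ⟨a + b, VV_mul D ha hb⟩

theorem denK {z : Ω} (hz : z ∈ D.K) :
    ∃ (q : Ω) (a : ℕ), q ≠ 0 ∧ q ∈ VV D a ∧ q * z ∈ VV D a := by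
  obtain ⟨x, hx, y, hy, rfl⟩ := (IntermediateField.mem_adjoin_iff_div (F := F)).1 hz
  obtain ⟨a, ha⟩ := adj_mem D hx
  obtain ⟨b, hb⟩ := adj_mem D hy
  by_cases h0 : y = 0
  · refine ⟨1, 1, one_ne_zero, one_mem_VV D, ?_⟩
    rw [h0]
    simp
  · refine ⟨y, a + b, h0, VV_mono D (by omega) hb, ?_⟩
    rw [mul_div_cancel₀ _ h0]
    exact VV_mono D (by omega) ha

theorem denU (s : Set Ω) {z : Ω} (hz : z ∈ span D.K s) :
    ∃ (q : Ω) (a : ℕ), q ≠ 0 ∧ q ∈ VV D a ∧ q * z ∈ VV D a * span F s := by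
  induction hz using Submodule.span_induction with
  | mem x hx =>
    exact ⟨1, 1, one_ne_zero, one_mem_VV D, mul_mem_mul (one_mem_VV D) (subset_span hx)⟩
  | zero => exact ⟨1, 1, one_ne_zero, one_mem_VV D, by simp⟩
  | add x y _ _ hx hy =>
    obtain ⟨q1, a1, h1, h1', h1''⟩ := hx
    obtain ⟨q2, a2, h2, h2', h2''⟩ := hy
    refine ⟨q1 * q2, a1 + a2, mul_ne_zero h1 h2, VV_mul D h1' h2', ?_⟩
    have e : q1 * q2 * (x + y) = q2 * (q1 * x) + q1 * (q2 * y) := by ring
    rw [e]
    refine add_mem ?_ (VVS_mul D h1' h2'')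
    have := VVS_mul D h2' h1''
    rwa [add_comm a2 a1] at this
  | smul c x _ hx =>
    obtain ⟨q1, a1, h1, h1', h1''⟩ := denK D c.2
    obtain ⟨q2, a2, h2, h2', h2''⟩ := hx
    refine ⟨q1 * q2, a1 + a2, mul_ne_zero h1 h2, VV_mul D h1' h2', ?_⟩
    have e : q1 * q2 * (c • x) = (q1 * (c : Ω)) * (q2 * x) := by
      rw [Algebra.smul_def]
      show q1 * q2 * ((c : Ω) * x) = _
      ring
    rw [e]
    exact VVS_mul D h1'' h2''

theorem denAll {κ : Type} (t : Finset κ) (g h : κ → Ω) (S : κ → Set Ω)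
    (hg : ∀ k ∈ t, g k ∈ D.K) (hh : ∀ k ∈ t, h k ∈ span D.K (S k)) :
    ∃ (q : Ω) (a : ℕ), q ≠ 0 ∧ q ∈ VV D a ∧ ∀ k ∈ t, q * g k ∈ VV D a ∧
      q * h k ∈ VV D a * span F (S k) := by
  classical
  induction t using Finset.induction_on with
  | empty => exact ⟨1, 1, one_ne_zero, one_mem_VV D, by simp⟩
  | insert k t hk ih =>
    obtain ⟨q, a, hq, hqa, hall⟩ := ih (fun k hk => hg k (Finset.mem_insert_of_mem hk))
      (fun k hk => hh k (Finset.mem_insert_of_mem hk))
    obtain ⟨q1, a1, h1, h1', h1''⟩ := denK D (hg k (Finset.mem_insert_self k t))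
    obtain ⟨q2, a2, h2, h2', h2''⟩ := denU D (S k) (hh k (Finset.mem_insert_self k t))
    refine ⟨q * (q1 * q2), a + (a1 + a2), mul_ne_zero hq (mul_ne_zero h1 h2),
      VV_mul D hqa (VV_mul D h1' h2'), ?_⟩
    intro l hl
    rcases Finset.mem_insert.1 hl with rfl | hl
    · constructor
      · have e : q * (q1 * q2) * g l = (q * q2) * (q1 * g l) := by ring
        rw [e]
        exact VV_mono D (by omega) (VV_mul D (VV_mul D hqa h2') h1'')
      · have e : q * (q1 * q2) * h l = (q * q1) * (q2 * h l) := by ring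
        rw [e]
        exact VVS_mono D (by omega) _ (VVS_mul D (VV_mul D hqa h1') h2'')
    · constructor
      · have e : q * (q1 * q2) * g l = (q1 * q2) * (q * g l) := by ring
        rw [e]
        exact VV_mono D (by omega) (VV_mul D (VV_mul D h1' h2') (hall l hl).1)
      · have e : q * (q1 * q2) * h l = (q1 * q2) * (q * h l) := by ring
        rw [e]
        exact VVS_mono D (by omega) _ (VVS_mul D (VV_mul D h1' h2') (hall l hl).2)

theorem bx_ne (T : ℕ) (m : Fin r → Fin T) : bx D.w T m ≠ 0 :=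
  Finset.prod_ne_zero_iff.2 fun j _ => pow_ne_zero _ (D.w0 j)

theorem bx_indep (i : I) (T : ℕ) : LinearIndependent F (bx D.w T) := by
  classical
  rw [Fintype.linearIndependent_iff]
  intro c hc m
  by_contra hcm
  have hinj : Function.Injective (fun (m : Fin r → Fin T) (j : Fin r) => ((m j : ℕ) : ℤ)) := by
    intro m m' hmm
    funext j
    have := congrFun hmm j
    simp only at this
    exact Fin.ext (by exact_mod_cast this)
  set ι : (Fin r → Fin T) ↪ (Fin r → ℤ) := ⟨_, hinj⟩ with hι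
  have hmon : ∀ m : Fin r → Fin T, mon D.w (ι m) = bx D.w T m := by
    intro m
    simp [mon, bx, hι]
  have h := D.lau i (univ.map ι) (Function.extend ι c 0) (ι m) (by simp)
    (by rw [ι.injective.extend_apply]; exact hcm)
  rw [Finset.sum_map] at h
  have e : ∑ m : Fin r → Fin T, algebraMap F Ω (Function.extend ι c 0 (ι m)) * mon D.w (ι m)
      = 0 := by
    rw [← hc]
    refine Finset.sum_congr rfl fun m _ => ?_
    rw [ι.injective.extend_apply, hmon, Algebra.smul_def]
  rw [e, map_zero, hmon] at h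
  exact absurd h (not_le.2 ((D.nu i).pos (bx_ne D T m)))

theorem ult_log (i : I) : Ult F (fun x : Ω => Real.log (D.nu i x)) where
  smul := by
    intro c x hc hx
    show Real.log (D.nu i (c • x)) = _
    rw [Algebra.smul_def, map_mul, D.F1 i c hc, one_mul]
  add := by
    intro x y hx hy hxy
    have h1 := (D.nu i).pos hx
    have h2 := (D.nu i).pos hy
    have h3 := (D.nu i).pos hxy
    rcases le_max_iff.1 (D.ult i x y) with h | h
    · exact le_max_of_le_left (Real.log_le_log h3 h)
    · exact le_max_of_le_right (Real.log_le_log h3 h)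

theorem finrank_VV (i : I) (T : ℕ) : Module.finrank F (VV D T) = T ^ r := by
  unfold VV
  rw [finrank_span_eq_card (bx_indep D i T)]
  simp

/-- the exchange at one place -/
theorem place (i : I) (a T : ℕ) (G : Ω) (hG : G ≠ 0) (hGV : G ∈ VV D a) :
    ∃ (s : Finset (Fin r → Fin (a + T))) (v : (Fin r → Fin (a + T)) → Ω),
      (∀ m ∉ s, v m ∈ VV D T ∧ D.nu i (G * v m) ≤ D.nu i (bx D.w (a + T) m)) ∧
      sᶜ.card = T ^ r ∧ s.card = (a + T) ^ r - T ^ r ∧
      span F (Set.range (fun m => open Classical in if m ∈ s then bx D.w (a + T) m else G * v m))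
        = VV D (a + T) := by
  classical
  have hle : (VV D T).map (LinearMap.mulLeft F G) ≤ span F (Set.range (bx D.w (a + T))) := by
    rintro _ ⟨x, hx, rfl⟩
    exact VV_mul D hGV hx
  obtain ⟨s, w, h1, h2, h3, h4, h5⟩ := greedy (ult_log D i) (bx D.w (a + T))
    (bx_indep D i (a + T)) ((VV D T).map (LinearMap.mulLeft F G)) hle
  have hv : ∀ m, ∃ v : Ω, m ∉ s → v ∈ VV D T ∧ G * v = w m := by
    intro m
    by_cases hm : m ∈ s
    · exact ⟨0, fun h => absurd hm h⟩
    · obtain ⟨v, hv, hv'⟩ := (h3 m hm).1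
      exact ⟨v, fun _ => ⟨hv, hv'⟩⟩
  choose v hv using hv
  have hcard : sᶜ.card = T ^ r := by
    have e1 : Module.finrank F ((VV D T).map (LinearMap.mulLeft F G)) = T ^ r := by
      rw [← finrank_VV D i T]
      exact (Submodule.equivMapOfInjective (LinearMap.mulLeft F G)
        (mul_right_injective₀ hG) (VV D T)).finrank_eq.symm
    rw [h4] at e1
    have e2 : (w '' {i | i ∉ s}) = Set.range (w ∘ (Subtype.val : {m // m ∉ s} → _)) := by
      ext x
      simp
    rw [e2, finrank_span_eq_card (h1.comp _ Subtype.val_injective)] at e1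
    rw [← e1]
    simp [Finset.card_compl, Fintype.card_subtype_compl]
  refine ⟨s, v, ?_, hcard, ?_, ?_⟩
  · intro m hm
    refine ⟨(hv m hm).1, ?_⟩
    rw [(hv m hm).2]
    exact (Real.log_le_log_iff ((D.nu i).pos (h1.ne_zero m)) ((D.nu i).pos (bx_ne D _ m))).1
      (h3 m hm).2
  · rw [← hcard, Finset.card_compl]
    have : s.card ≤ Fintype.card (Fin r → Fin (a + T)) := Finset.card_le_univ s
    have e : Fintype.card (Fin r → Fin (a + T)) = (a + T) ^ r := by simp
    omega
  · have e : (fun m => if m ∈ s then bx D.w (a + T) m else G * v m) = w := by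
      funext m
      by_cases hm : m ∈ s
      · simp [hm, h2 m hm]
      · simp [hm, (hv m hm).2]
    rw [e, h5]
    rfl

theorem one_le_prod {z : Ω} (hz : z ∈ D.O) (h0 : z ≠ 0) : 1 ≤ ∏ i, D.nu i z := by
  have h := D.ss 1 (fun _ => z) (fun _ _ => z) (fun _ => hz)
    (LinearIndependent.of_subsingleton 0 h0) (fun _ => rfl)
  simpa using h

theorem bx_memO (T : ℕ) (m : Fin r → Fin T) : bx D.w T m ∈ D.O :=
  prod_mem fun j _ => pow_mem (D.wO j) _

theorem bx_inv_memO (T : ℕ) (m : Fin r → Fin T) : (bx D.w T m)⁻¹ ∈ D.O := by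
  unfold bx
  rw [← Finset.prod_inv_distrib]
  refine prod_mem fun j _ => ?_
  rw [← inv_pow]
  exact pow_mem (D.wO' j) _

theorem bx_memK (T : ℕ) (m : Fin r → Fin T) : bx D.w T m ∈ D.K :=
  prod_mem fun j _ => pow_mem (IntermediateField.subset_adjoin F (Set.range D.w) (Set.mem_range_self j)) _

theorem bx_prod (T : ℕ) (m : Fin r → Fin T) : ∏ i, D.nu i (bx D.w T m) = 1 := by
  apply le_antisymm _ (one_le_prod D (bx_memO D T m) (bx_ne D T m))
  have h := one_le_prod D (bx_inv_memO D T m) (inv_ne_zero (bx_ne D T m))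
  simp only [map_inv₀, Finset.prod_inv_distrib] at h
  have h0 : 0 < ∏ i, D.nu i (bx D.w T m) :=
    Finset.prod_pos fun i _ => (D.nu i).pos (bx_ne D T m)
  rwa [one_le_inv₀ h0] at h

/-- the Subspace theorem with arbitrary finite index types -/
theorem ss' {ι : Type} [Fintype ι] (e : ι → Ω) (f : I → ι → Ω) (he : ∀ k, e k ∈ D.O)
    (hli : LinearIndependent F e) (hsp : ∀ i, span F (Set.range (f i)) = span F (Set.range e)) :
    1 ≤ ∏ i, ∏ k, D.nu i (f i k) := by
  have eq := (Fintype.equivFin ι).symm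
  have h := D.ss (Fintype.card ι) (fun j => e (eq j)) (fun i j => f i (eq j)) (fun j => he _)
    (hli.comp _ eq.injective) (by
      intro i
      have h1 : Set.range (fun j => f i (eq j)) = Set.range (f i) := eq.surjective.range_comp _
      have h2 : Set.range (fun j => e (eq j)) = Set.range e := eq.surjective.range_comp _
      rw [h1, h2]
      exact hsp i)
  refine h.trans_eq (Finset.prod_congr rfl fun i _ => ?_)
  exact Equiv.prod_comp eq (fun k => D.nu i (f i k))

/-- a family with triangular transition spans -/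
theorem span_tri {κ : Type} [Fintype κ] {ι : Type} (N : ℕ) (e : κ → Ω) (ρ : κ → ℕ)
    (W : κ → ι → Ω) (hW : ∀ k, span F (Set.range (W k)) = VV D N) (h : ι × κ → Ω)
    (hd : ∀ m k, h (m, k) - W k m * e k ∈ VV D N * span F (e '' {l | ρ l < ρ k})) :
    span F (Set.range h) = VV D N * span F (Set.range e) := by
  apply le_antisymm
  · refine span_le.2 ?_
    rintro _ ⟨⟨m, k⟩, rfl⟩
    have h1 : W k m * e k ∈ VV D N * span F (Set.range e) := by
      refine mul_mem_mul ?_ (subset_span ⟨k, rfl⟩)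
      rw [← hW k]
      exact subset_span ⟨m, rfl⟩
    have h2 : VV D N * span F (e '' {l | ρ l < ρ k}) ≤ VV D N * span F (Set.range e) :=
      mul_le_mul' le_rfl (span_mono (Set.image_subset_range _ _))
    have h3 : h (m, k) = (h (m, k) - W k m * e k) + W k m * e k := by ring
    show h (m, k) ∈ _
    rw [h3]
    exact add_mem (h2 (hd m k)) h1
  · have key : ∀ n : ℕ, ∀ k, ρ k < n → ∀ x ∈ VV D N, x * e k ∈ span F (Set.range h) := by
      intro n
      induction n with
      | zero => intro k hk; omega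
      | succ n ih =>
        intro k hk x hx
        have h1 : VV D N * span F (e '' {l | ρ l < ρ k}) ≤ span F (Set.range h) := by
          refine Submodule.mul_le.2 fun x hx y hy => ?_
          have h2 : span F (e '' {l | ρ l < ρ k})
              ≤ (span F (Set.range h)).comap (LinearMap.mulLeft F x) := by
            refine span_le.2 ?_
            rintro _ ⟨l, hl, rfl⟩
            exact ih l (lt_of_lt_of_le hl (Nat.lt_succ_iff.1 hk)) x hx
          exact h2 hy
        have h3 : span F (Set.range (W k))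
            ≤ (span F (Set.range h)).comap (LinearMap.mulRight F (e k)) := by
          refine span_le.2 ?_
          rintro _ ⟨m, rfl⟩
          show W k m * e k ∈ span F (Set.range h)
          have h4 : W k m * e k = h (m, k) - (h (m, k) - W k m * e k) := by ring
          rw [h4]
          exact sub_mem (subset_span ⟨(m, k), rfl⟩) (h1 (hd m k))
        rw [hW k] at h3
        exact h3 hx
    refine Submodule.mul_le.2 fun x hx y hy => ?_
    have h2 : span F (Set.range e) ≤ (span F (Set.range h)).comap (LinearMap.mulLeft F x) := by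
      refine span_le.2 ?_
      rintro _ ⟨k, rfl⟩
      exact key (ρ k + 1) k (Nat.lt_succ_self _) x hx
    exact h2 hy

theorem E_indep {κ : Type} (i : I) (N : ℕ) (e : κ → Ω) (he : LinearIndependent D.K e) :
    LinearIndependent F (fun p : (Fin r → Fin N) × κ => bx D.w N p.1 * e p.2) := by
  have hb : LinearIndependent F (fun m : Fin r → Fin N => (⟨bx D.w N m, bx_memK D N m⟩ : D.K)) :=
    LinearIndependent.of_comp D.K.val.toLinearMap (bx_indep D i N)
  exact linearIndependent_smul hb he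

/-- the limit -/
theorem lim_aux {A Q : ℝ} (hA : 1 ≤ A) (hQ : 0 ≤ Q) (a r : ℕ)
    (h : ∀ T : ℕ, 1 ≤ A ^ ((a + T) ^ r - T ^ r) * Q ^ (T ^ r)) : 1 ≤ Q := by
  by_contra hc
  push Not at hc
  have hA0 : 0 < A := by linarith
  obtain ⟨M, hM⟩ := exists_pow_lt_of_lt_one (inv_pos.2 hA0) hc
  have hAM : A * Q ^ M < 1 := by
    have := mul_lt_mul_of_pos_left hM hA0
    rwa [mul_inv_cancel₀ hA0.ne'] at this
  set K : ℕ := r * (M + 1) with hK
  set T : ℕ := (a + 1) * (K + 1) with hT
  have hT0 : 0 < T := by positivity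
  have hTr : 0 < T ^ r := pow_pos hT0 r
  -- `M * ((a + T) ^ r - T ^ r) ≤ T ^ r`
  have hle : T ^ r ≤ (a + T) ^ r := Nat.pow_le_pow_left (by omega) r
  have hkey : M * ((a + T) ^ r - T ^ r) ≤ T ^ r := by
    have hb : 1 + (r : ℝ) * (-(1 / ((K : ℝ) + 2))) ≤ (1 + -(1 / ((K : ℝ) + 2))) ^ r := by
      apply one_add_mul_le_pow
      have : 1 / ((K : ℝ) + 2) ≤ 1 := by
        rw [div_le_one (by positivity)]
        have : (0 : ℝ) ≤ K := Nat.cast_nonneg K
        linarith
      linarith
    have hr1 : (r : ℝ) * (1 / ((K : ℝ) + 2)) ≤ 1 / ((M : ℝ) + 1) := by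
      rw [mul_one_div, div_le_div_iff₀ (by positivity) (by positivity)]
      have : (K : ℝ) = r * (M + 1) := by rw [hK]; push_cast; ring
      rw [this]
      linarith
    have h1 : (M : ℝ) / (M + 1) ≤ (1 + -(1 / ((K : ℝ) + 2))) ^ r := by
      refine le_trans ?_ hb
      have : (M : ℝ) / (M + 1) = 1 - 1 / ((M : ℝ) + 1) := by
        field_simp
        ring
      rw [this]
      linarith
    -- `(a + T) * (1 - 1 / (K + 2)) ≤ T`
    have h2 : ((a : ℝ) + T) * (1 + -(1 / ((K : ℝ) + 2))) ≤ T := by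
      have e : (1 + -(1 / ((K : ℝ) + 2))) = ((K : ℝ) + 1) / (K + 2) := by
        field_simp
        ring
      rw [e, mul_div_assoc', div_le_iff₀ (by positivity)]
      have e2 : (T : ℝ) = (a + 1) * (K + 1) := by rw [hT]; push_cast; ring
      rw [e2]
      have : (0 : ℝ) ≤ K := Nat.cast_nonneg K
      nlinarith
    have h0 : 0 ≤ 1 + -(1 / ((K : ℝ) + 2)) := by
      have : 1 / ((K : ℝ) + 2) ≤ 1 := by
        rw [div_le_one (by positivity)]
        have : (0 : ℝ) ≤ K := Nat.cast_nonneg K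
        linarith
      linarith
    have h3 : ((a : ℝ) + T) ^ r * (M / (M + 1)) ≤ (T : ℝ) ^ r := by
      calc ((a : ℝ) + T) ^ r * (M / (M + 1))
          ≤ ((a : ℝ) + T) ^ r * (1 + -(1 / ((K : ℝ) + 2))) ^ r :=
            mul_le_mul_of_nonneg_left h1 (by positivity)
        _ = (((a : ℝ) + T) * (1 + -(1 / ((K : ℝ) + 2)))) ^ r := by rw [mul_pow]
        _ ≤ (T : ℝ) ^ r := pow_le_pow_left₀ (mul_nonneg (by positivity) h0) h2 r
    have h4 : ((a : ℝ) + T) ^ r * M ≤ (T : ℝ) ^ r * (M + 1) := by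
      rw [mul_div_assoc', div_le_iff₀ (by positivity)] at h3
      exact h3
    have h5 : (a + T) ^ r * M ≤ T ^ r * (M + 1) := by exact_mod_cast h4
    have h6 : M * ((a + T) ^ r - T ^ r) + M * T ^ r = M * (a + T) ^ r := by
      rw [← mul_add, Nat.sub_add_cancel hle]
    have h7 : T ^ r * (M + 1) = M * T ^ r + T ^ r := by ring
    have h8 : (a + T) ^ r * M = M * (a + T) ^ r := by ring
    omega
  set d : ℕ := (a + T) ^ r - T ^ r with hd
  have hT1 : 1 ≤ A ^ d * Q ^ (T ^ r) := h T
  by_cases hd0 : d = 0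
  · rw [hd0, pow_zero, one_mul] at hT1
    exact absurd hT1 (not_le.2 (pow_lt_one₀ hQ hc hTr.ne'))
  · have h1 : A ^ d * Q ^ (T ^ r) ≤ (A * Q ^ M) ^ d := by
      rw [mul_pow A (Q ^ M) d, ← pow_mul Q M d]
      exact mul_le_mul_of_nonneg_left (pow_le_pow_of_le_one hQ hc.le hkey) (by positivity)
    have h2 : (A * Q ^ M) ^ d < 1 := pow_lt_one₀ (by positivity) hAM hd0
    linarith

/-- the generic Subspace theorem over the field generated by the units, with an order of the
basis which may depend on the place -/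
theorem gskP {κ : Type} [Fintype κ] (e : κ → Ω) (f g : I → κ → Ω) (ρ : I → κ → ℕ)
    (heO : ∀ k, e k ∈ D.O) (hei : LinearIndependent D.K e)
    (hg : ∀ i k, g i k ∈ D.K ∧ g i k ≠ 0)
    (hf : ∀ i k, f i k - g i k * e k ∈ span D.K (e '' {l | ρ i l < ρ i k})) :
    1 ≤ ∏ i, ∏ k, D.nu i (f i k) / D.nu i (g i k) := by
  classical
  rcases isEmpty_or_nonempty I with hI | ⟨⟨i0⟩⟩
  · simp
  obtain ⟨q, a, hq, hqa, hall⟩ := denAll D (univ : Finset (I × κ)) (fun p => g p.1 p.2)
    (fun p => f p.1 p.2 - g p.1 p.2 * e p.2) (fun p => e '' {l | ρ p.1 l < ρ p.1 p.2})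
    (fun p _ => (hg p.1 p.2).1) (fun p _ => hf p.1 p.2)
  have hgV : ∀ i k, q * g i k ∈ VV D a := fun i k => (hall (i, k) (Finset.mem_univ _)).1
  have hfV : ∀ i k, q * (f i k - g i k * e k) ∈ VV D a * span F (e '' {l | ρ i l < ρ i k}) :=
    fun i k => (hall (i, k) (Finset.mem_univ _)).2
  have he0 : ∀ k, e k ≠ 0 := fun k => hei.ne_zero k
  set A : ℝ := ∏ i, ∏ k, D.nu i (e k) with hA
  set Q : ℝ := ∏ i, ∏ k, D.nu i (f i k) / D.nu i (g i k) with hQ
  have hA1 : 1 ≤ A := by
    rw [hA, Finset.prod_comm]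
    have : ∀ k ∈ (univ : Finset κ), (1 : ℝ) ≤ ∏ i, D.nu i (e k) :=
      fun k _ => one_le_prod D (heO k) (he0 k)
    calc (1 : ℝ) = ∏ k : κ, 1 := by simp
      _ ≤ ∏ k, ∏ i, D.nu i (e k) := Finset.prod_le_prod (fun _ _ => zero_le_one) this
  have hQ0 : 0 ≤ Q := Finset.prod_nonneg fun i _ => Finset.prod_nonneg fun k _ =>
    div_nonneg ((D.nu i).nonneg _) ((D.nu i).nonneg _)
  refine lim_aux hA1 hQ0 a r fun T => ?_
  choose s v hsv hsc hsc' hss using fun (i : I) (k : κ) =>
    place D i a T (q * g i k) (mul_ne_zero hq (hg i k).2) (hgV i k)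
  set W : I → κ → (Fin r → Fin (a + T)) → Ω := fun i k m =>
    if m ∈ s i k then bx D.w (a + T) m else q * g i k * v i k m with hWdef
  set h : I → (Fin r → Fin (a + T)) × κ → Ω := fun i p =>
    if p.1 ∈ s i p.2 then bx D.w (a + T) p.1 * e p.2 else v i p.2 p.1 * (q * f i p.2) with hhdef
  have hsp : ∀ i, span F (Set.range (h i)) = VV D (a + T) * span F (Set.range e) := by
    intro i
    refine span_tri D (a + T) e (ρ i) (W i) (fun k => ?_) (h i) ?_
    · rw [← hss i k]
    · intro m k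
      by_cases hm : m ∈ s i k
      · simp [hhdef, hWdef, hm]
      · have e1 : h i (m, k) - W i k m * e k = v i k m * (q * (f i k - g i k * e k)) := by
          simp only [hhdef, hWdef, hm, if_false]
          ring
        rw [e1]
        have := VVS_mul D (hsv i k m hm).1 (hfV i k)
        rwa [add_comm T a] at this
  have hE : span F (Set.range (fun p : (Fin r → Fin (a + T)) × κ => bx D.w (a + T) p.1 * e p.2))
      = VV D (a + T) * span F (Set.range e) := by
    refine span_tri D (a + T) e (ρ i0) (fun _ => bx D.w (a + T)) (fun k => rfl) _ ?_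
    intro m k
    simp
  have hss' := ss' D (fun p : (Fin r → Fin (a + T)) × κ => bx D.w (a + T) p.1 * e p.2) h
    (fun p => D.O.mul_mem (bx_memO D _ _) (heO _)) (E_indep D i0 (a + T) e hei)
    (fun i => by rw [hsp i, hE])
  refine hss'.trans ?_
  have hb : ∀ i k, ∏ m, D.nu i (h i (m, k)) ≤ (∏ m, D.nu i (bx D.w (a + T) m)) *
      (D.nu i (e k) ^ ((a + T) ^ r - T ^ r) * (D.nu i (f i k) / D.nu i (g i k)) ^ (T ^ r)) := by
    intro i k
    have h1 : ∀ m, D.nu i (h i (m, k)) ≤ D.nu i (bx D.w (a + T) m) *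
        (if m ∈ s i k then D.nu i (e k) else D.nu i (f i k) / D.nu i (g i k)) := by
      intro m
      by_cases hm : m ∈ s i k
      · simp [hhdef, hm]
      · simp only [hhdef, hm, if_false]
        have h2 := (hsv i k m hm).2
        rw [map_mul, map_mul] at h2
        rw [map_mul, map_mul]
        have hg0 := (D.nu i).pos (hg i k).2
        rw [mul_div_assoc', le_div_iff₀ hg0]
        have h3 := mul_le_mul_of_nonneg_right h2 ((D.nu i).nonneg (f i k))
        calc D.nu i (v i k m) * (D.nu i q * D.nu i (f i k)) * D.nu i (g i k)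
            = D.nu i q * D.nu i (g i k) * D.nu i (v i k m) * D.nu i (f i k) := by ring
          _ ≤ _ := h3
    calc ∏ m, D.nu i (h i (m, k)) ≤ ∏ m, (D.nu i (bx D.w (a + T) m) *
        (if m ∈ s i k then D.nu i (e k) else D.nu i (f i k) / D.nu i (g i k))) :=
          Finset.prod_le_prod (fun m _ => (D.nu i).nonneg _) (fun m _ => h1 m)
      _ = (∏ m, D.nu i (bx D.w (a + T) m)) *
          ∏ m, (if m ∈ s i k then D.nu i (e k) else D.nu i (f i k) / D.nu i (g i k)) :=
          Finset.prod_mul_distrib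
      _ = _ := by
          congr 1
          rw [← Finset.prod_mul_prod_compl (s i k)]
          rw [Finset.prod_congr rfl (fun m (hm : m ∈ s i k) => if_pos hm)]
          rw [Finset.prod_congr rfl (fun m (hm : m ∈ (s i k)ᶜ) =>
            if_neg (Finset.mem_compl.1 hm))]
          rw [Finset.prod_const, Finset.prod_const, hsc i k, hsc' i k]
  calc ∏ i, ∏ p, D.nu i (h i p) = ∏ i, ∏ k, ∏ m, D.nu i (h i (m, k)) := by
        refine Finset.prod_congr rfl fun i _ => ?_
        rw [Fintype.prod_prod_type, Finset.prod_comm]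
    _ ≤ ∏ i, ∏ k, ((∏ m, D.nu i (bx D.w (a + T) m)) *
        (D.nu i (e k) ^ ((a + T) ^ r - T ^ r)
          * (D.nu i (f i k) / D.nu i (g i k)) ^ (T ^ r))) := by
        refine Finset.prod_le_prod (fun i _ => Finset.prod_nonneg fun k _ =>
          Finset.prod_nonneg fun m _ => (D.nu i).nonneg _) (fun i _ => ?_)
        exact Finset.prod_le_prod (fun k _ => Finset.prod_nonneg fun m _ => (D.nu i).nonneg _)
          (fun k _ => hb i k)
    _ = A ^ ((a + T) ^ r - T ^ r) * Q ^ (T ^ r) := by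
        simp only [Finset.prod_mul_distrib, Finset.prod_pow]
        have h1 : ∏ i : I, ∏ _k : κ, ∏ m, D.nu i (bx D.w (a + T) m) = 1 := by
          rw [Finset.prod_comm]
          refine Finset.prod_eq_one fun k _ => ?_
          rw [Finset.prod_comm]
          exact Finset.prod_eq_one fun m _ => bx_prod D _ m
        rw [h1, one_mul]

end box

theorem st_GSK : ST_GSK := by
  intro F Ω _ _ _ I _ r D n e f g he hei hg hf
  refine gskP D e f g (fun _ k => (k : ℕ)) he hei hg (fun i k => ?_)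
  exact hf i k

end Pool.Agent.Helper70.JN
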