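import Pool.Agent.Helper70.JN.Locf
import Pool.Agent.Helper70.JN.GSK

/-! Theorem W+, part A: `x` is algebraic over `K` (helper70). -/

set_option autoImplicit false

namespace Pool.Agent.Helper70.JN

open Polynomial Pool.Agent.Helper71.JN

section fil
variable {K Ω : Type} [Field K] [Field Ω] [Algebra K Ω]

/-- the span of the monomials of weight `< W` -/
def Fil (K : Type) {Ω : Type} [Field K] [Field Ω] [Algebra K Ω] (x y : Ω) (W : ℕ) :
    Submodule K Ω :=
  Submodule.span K {z | ∃ V, V < W ∧ V ≠ 1 ∧ z = em x y V}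

theorem em_mem {x y : Ω} {V W : ℕ} (h : V < W) (h1 : V ≠ 1) : em x y V ∈ Fil K x y W :=
  Submodule.subset_span ⟨V, h, h1, rfl⟩

theorem Fil_mono {x y : Ω} {V W : ℕ} (h : V ≤ W) : Fil K x y V ≤ Fil K x y W :=
  Submodule.span_mono fun _ ⟨U, hU, h1, he⟩ => ⟨U, lt_of_lt_of_le hU h, h1, he⟩

theorem em_zero (x y : Ω) : em x y 0 = 1 := by simp [em]

/-- product of two monomials -/
theorem em_mul {x y : Ω} {d : K} (hE : y ^ 2 = x ^ 3 + algebraMap K Ω d) {V W : ℕ} (hV : V ≠ 1)
    (hW : W ≠ 1) : em x y V * em x y W - em x y (V + W) ∈ Fil K x y (V + W) := by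
  unfold em
  by_cases h1 : Even V
  · by_cases h2 : Even W
    · rw [if_pos h1, if_pos h2, if_pos (h1.add h2), ← pow_add]
      obtain ⟨a, ha⟩ := h1
      obtain ⟨b, hb⟩ := h2
      have e : V / 2 + W / 2 = (V + W) / 2 := by omega
      rw [e, sub_self]
      exact zero_mem _
    · have h3 : ¬ Even (V + W) := by
        rw [Nat.even_add]
        tauto
      rw [if_pos h1, if_neg h2, if_neg h3, ← mul_assoc, ← pow_add]
      obtain ⟨a, ha⟩ := h1
      obtain ⟨b, hb⟩ := Nat.not_even_iff_odd.1 h2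
      have e : V / 2 + (W - 3) / 2 = (V + W - 3) / 2 := by omega
      rw [e, sub_self]
      exact zero_mem _
  · by_cases h2 : Even W
    · have h3 : ¬ Even (V + W) := by
        rw [Nat.even_add]
        tauto
      rw [if_neg h1, if_pos h2, if_neg h3]
      obtain ⟨b, hb⟩ := h2
      obtain ⟨a, ha⟩ := Nat.not_even_iff_odd.1 h1
      have e : x ^ ((V - 3) / 2) * y * x ^ (W / 2) = x ^ ((V - 3) / 2 + W / 2) * y := by
        rw [pow_add]
        ring
      have e2 : (V - 3) / 2 + W / 2 = (V + W - 3) / 2 := by omega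
      rw [e, e2, sub_self]
      exact zero_mem _
    · have h3 : Even (V + W) := by
        rw [Nat.even_add]
        tauto
      rw [if_neg h1, if_neg h2, if_pos h3]
      obtain ⟨a, ha⟩ := Nat.not_even_iff_odd.1 h1
      obtain ⟨b, hb⟩ := Nat.not_even_iff_odd.1 h2
      have e : x ^ ((V - 3) / 2) * y * (x ^ ((W - 3) / 2) * y) =
          x ^ ((V + W) / 2) + d • x ^ ((V + W - 6) / 2) := by
        have e1 : (V + W) / 2 = (V - 3) / 2 + (W - 3) / 2 + 3 := by omega
        have e2 : (V + W - 6) / 2 = (V - 3) / 2 + (W - 3) / 2 := by omega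
        rw [e1, e2, pow_add, pow_add, Algebra.smul_def]
        linear_combination (x ^ ((V - 3) / 2) * x ^ ((W - 3) / 2)) * hE
      rw [e, add_sub_cancel_left]
      have h4 : Even (V + W - 6) := by
        obtain ⟨c, hc⟩ := h3
        exact ⟨c - 3, by omega⟩
      have h5 : x ^ ((V + W - 6) / 2) = em x y (V + W - 6) := by
        unfold em
        rw [if_pos h4]
      rw [h5]
      refine Submodule.smul_mem _ _ (em_mem (by omega) ?_)
      intro h6
      rw [h6] at h4
      exact absurd h4 (by decide)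

theorem em_mul_mem {x y : Ω} {d : K} (hE : y ^ 2 = x ^ 3 + algebraMap K Ω d) {V W U : ℕ}
    (hV : V ≠ 1) (hW : W ≠ 1) (h : V + W < U) : em x y V * em x y W ∈ Fil K x y U := by
  have h1 := em_mul hE hV hW
  have h2 : em x y V * em x y W = (em x y V * em x y W - em x y (V + W)) + em x y (V + W) := by
    ring
  rw [h2]
  exact add_mem (Fil_mono h.le h1) (em_mem h (by omega))

theorem Fil_mul {x y : Ω} {d : K} (hE : y ^ 2 = x ^ 3 + algebraMap K Ω d) {V W : ℕ} {a b : Ω}
    (ha : a ∈ Fil K x y V) (hb : b ∈ Fil K x y W) : a * b ∈ Fil K x y (V + W) := by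
  have h1 : Fil K x y V * Fil K x y W ≤ Fil K x y (V + W) := by
    unfold Fil
    rw [Submodule.span_mul_span]
    refine Submodule.span_le.2 ?_
    rintro _ ⟨_, ⟨V', hV', h1, rfl⟩, _, ⟨W', hW', h2, rfl⟩, rfl⟩
    exact em_mul_mem hE h1 h2 (by omega)
  exact h1 (Submodule.mul_mem_mul ha hb)

theorem Fil_em {x y : Ω} {d : K} (hE : y ^ 2 = x ^ 3 + algebraMap K Ω d) {V W : ℕ} {a : Ω}
    (hW : W ≠ 1) (ha : a ∈ Fil K x y V) : a * em x y W ∈ Fil K x y (V + W) := by
  have h1 : Fil K x y V ≤ (Fil K x y (V + W)).comap (LinearMap.mulRight K (em x y W)) := by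
    refine Submodule.span_le.2 ?_
    rintro _ ⟨V', hV', h1, rfl⟩
    exact em_mul_mem hE h1 hW (by omega)
  exact h1 ha

/-- monic elements of weight `W` -/
def Mo (K : Type) {Ω : Type} [Field K] [Field Ω] [Algebra K Ω] (x y : Ω) (W : ℕ) (z : Ω) : Prop :=
  z - em x y W ∈ Fil K x y W

theorem Mo_mul {x y : Ω} {d : K} (hE : y ^ 2 = x ^ 3 + algebraMap K Ω d) {V W : ℕ} (hV : V ≠ 1)
    (hW : W ≠ 1) {a b : Ω} (ha : Mo K x y V a) (hb : Mo K x y W b) :
    Mo K x y (V + W) (a * b) := by
  unfold Mo at *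
  have h1 : a * b - em x y (V + W) = (a - em x y V) * (b - em x y W) +
      (a - em x y V) * em x y W + (b - em x y W) * em x y V +
      (em x y V * em x y W - em x y (V + W)) := by ring
  rw [h1]
  refine add_mem (add_mem (add_mem (Fil_mul hE ha hb) (Fil_em hE hW ha)) ?_) (em_mul hE hV hW)
  have := Fil_em hE hV hb
  rwa [add_comm] at this

theorem Mo_em {x y : Ω} (W : ℕ) : Mo K x y W (em x y W) := by
  unfold Mo
  rw [sub_self]
  exact zero_mem _

theorem Mo_pow {x y : Ω} {d : K} (hE : y ^ 2 = x ^ 3 + algebraMap K Ω d) {W : ℕ} (hW : 2 ≤ W)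
    {a : Ω} (ha : Mo K x y W a) (l : ℕ) : Mo K x y (l * W) (a ^ l) := by
  induction l with
  | zero =>
    have := Mo_em (K := K) (x := x) (y := y) 0
    rw [em_zero] at this
    simpa using this
  | succ l ih =>
    rw [pow_succ, Nat.succ_mul]
    refine Mo_mul hE ?_ (by omega) ih ha
    intro h
    have h1 : W ∣ 1 := ⟨l, by rw [← h]; ring⟩
    have := Nat.dvd_one.1 h1
    omega

/-- division of the weights -/
def ql (w W : ℕ) : ℕ := if W % w = 1 then W / w - 1 else W / w

/-- the rest -/
def rl (w W : ℕ) : ℕ := if W % w = 1 then w + 1 else W % w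

theorem ql_rl {w W : ℕ} (_hw : 2 ≤ w) (hW : W ≠ 1) : ql w W * w + rl w W = W := by
  unfold ql rl
  have h1 := Nat.div_add_mod W w
  generalize W / w = t at *
  generalize W % w = m at *
  split_ifs with h
  · have h2 : 1 ≤ t := by
      by_contra h3
      have h4 : t = 0 := by omega
      rw [h4, mul_zero, zero_add, h] at h1
      exact hW h1.symm
    obtain ⟨n, rfl⟩ := Nat.exists_eq_add_of_le h2
    have e1 : 1 + n - 1 = n := by omega
    rw [h, mul_add, mul_one] at h1
    have h5 : w * n = n * w := mul_comm _ _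
    rw [e1]
    omega
  · have h5 : w * t = t * w := mul_comm _ _
    omega

theorem rl_ne {w W : ℕ} (hw : 2 ≤ w) : rl w W ≠ 1 := by
  unfold rl
  split_ifs <;> omega

theorem rl_le {w W : ℕ} (hw : 2 ≤ w) : rl w W ≤ w + 1 := by
  unfold rl
  split_ifs
  · exact le_rfl
  · have := Nat.mod_lt W (by omega : 0 < w)
    omega

theorem ql_ge {w W : ℕ} : W / w - 1 ≤ ql w W := by
  unfold ql
  generalize W / w = t
  split_ifs <;> omega

/-- independence of the monomials -/
theorem em_indep {x y : Ω} {d : K} (hE : y ^ 2 = x ^ 3 + algebraMap K Ω d)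
    (hx : ¬ IsIntegral K x) (N : ℕ) : LinearIndependent K (fun j : Fin N => em x y (wt j)) := by
  classical
  have htr : Function.Injective (aeval x : K[X] →ₐ[K] Ω) := by
    rw [injective_iff_map_eq_zero]
    intro P hP
    by_contra h0
    exact hx (isAlgebraic_iff_isIntegral.1 ⟨P, h0, hP⟩)
  rw [Fintype.linearIndependent_iff]
  intro g hg
  set A : K[X] := ∑ j : Fin N, if Even (wt j) then C (g j) * X ^ (wt j / 2) else 0 with hA
  set B : K[X] := ∑ j : Fin N, if Even (wt j) then 0 else C (g j) * X ^ ((wt j - 3) / 2) with hB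
  have h1 : aeval x A + aeval x B * y = 0 := by
    rw [← hg, hA, hB, map_sum, map_sum, Finset.sum_mul, ← Finset.sum_add_distrib]
    refine Finset.sum_congr rfl fun j _ => ?_
    unfold em
    by_cases h : Even (wt j)
    · simp only [if_pos h, map_mul, aeval_C, map_pow, aeval_X, map_zero, zero_mul, add_zero,
        Algebra.smul_def]
    · simp only [if_neg h, map_mul, aeval_C, map_pow, aeval_X, map_zero, zero_add,
        Algebra.smul_def, mul_assoc]
  have h2 : A ^ 2 = B ^ 2 * (X ^ 3 + C d) := by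
    apply htr
    rw [map_pow, map_mul, map_pow, map_add, map_pow, aeval_X, aeval_C, ← hE]
    linear_combination (aeval x A - aeval x B * y) * h1
  have hB0 : B = 0 := by
    by_contra hB0
    have h3 : (X ^ 3 + C d : K[X]).natDegree = 3 := natDegree_X_pow_add_C
    have h3' : (X ^ 3 + C d : K[X]) ≠ 0 := by
      intro h
      rw [h, natDegree_zero] at h3
      omega
    have h4 := congrArg natDegree h2
    rw [natDegree_pow, natDegree_mul (pow_ne_zero 2 hB0) h3', natDegree_pow, h3] at h4
    omega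
  have hA0 : A = 0 := by
    rw [hB0] at h2
    have : A ^ 2 = 0 := by rw [h2]; ring
    exact pow_eq_zero_iff (two_ne_zero) |>.1 this
  intro j
  by_cases h : Even (wt j)
  · have h3 := congrArg (fun P : K[X] => P.coeff (wt j / 2)) hA0
    simp only [hA, finsetSum_coeff, coeff_zero] at h3
    rw [Finset.sum_eq_single j] at h3
    · rw [if_pos h] at h3
      simpa using h3
    · intro i _ hij
      split_ifs with h4
      · rw [coeff_C_mul, coeff_X_pow, if_neg, mul_zero]
        intro h5
        apply hij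
        obtain ⟨a, ha⟩ := h
        obtain ⟨b, hb⟩ := h4
        exact Fin.ext (wt_inj (by omega))
      · exact coeff_zero _
    · intro h4
      exact absurd (Finset.mem_univ j) h4
  · have h3 := congrArg (fun P : K[X] => P.coeff ((wt j - 3) / 2)) hB0
    simp only [hB, finsetSum_coeff, coeff_zero] at h3
    rw [Finset.sum_eq_single j] at h3
    · rw [if_neg h] at h3
      simpa using h3
    · intro i _ hij
      split_ifs with h4
      · exact coeff_zero _
      · rw [coeff_C_mul, coeff_X_pow, if_neg, mul_zero]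
        intro h5
        apply hij
        obtain ⟨a, ha⟩ := Nat.not_even_iff_odd.1 h
        obtain ⟨b, hb⟩ := Nat.not_even_iff_odd.1 h4
        have h6 := wt_ne_one j
        have h7 := wt_ne_one i
        exact Fin.ext (wt_inj (by omega))
    · intro h4
      exact absurd (Finset.mem_univ j) h4

end fil

/-- a product which becomes small -/
theorem prod_small {a : ℕ → ℝ} (ha : ∀ j, 0 ≤ a j) {j0 : ℕ} (hj : ∀ j, j0 ≤ j → a j ≤ 1 / 2) :
    ∃ N, ∏ j ∈ Finset.range N, a j < 1 := by
  set c : ℝ := ∏ j ∈ Finset.range j0, a j with hc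
  have hc0 : 0 ≤ c := Finset.prod_nonneg fun j _ => ha j
  obtain ⟨m, hm⟩ := exists_pow_lt_of_lt_one (x := 1 / (c + 1)) (y := (1 / 2 : ℝ))
    (by positivity) (by norm_num)
  refine ⟨j0 + m, ?_⟩
  have h1 : ∏ j ∈ Finset.range (j0 + m), a j ≤ c * (1 / 2) ^ m := by
    rw [Finset.prod_range_add]
    refine mul_le_mul_of_nonneg_left ?_ hc0
    calc ∏ j ∈ Finset.range m, a (j0 + j) ≤ ∏ _j ∈ Finset.range m, (1 / 2 : ℝ) :=
          Finset.prod_le_prod (fun j _ => ha _) (fun j _ => hj _ (Nat.le_add_right _ _))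
      _ = (1 / 2) ^ m := by simp
  refine lt_of_le_of_lt h1 ?_
  have h2 : c * (1 / 2) ^ m ≤ c * (1 / (c + 1)) := mul_le_mul_of_nonneg_left hm.le hc0
  refine lt_of_le_of_lt h2 ?_
  rw [mul_one_div, div_lt_one (by positivity)]
  linarith

section
variable {F Ω : Type} [Field F] [Field Ω] [CharZero Ω] [Algebra F Ω] {I : Type} [Fintype I]
  {r : ℕ}

theorem charZeroF (F Ω : Type) [Field F] [Field Ω] [CharZero Ω] [Algebra F Ω] :
    CharZero F := by
  have : Function.Injective (Nat.cast : ℕ → F) := by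
    intro a b h
    have := congrArg (algebraMap F Ω) h
    rw [map_natCast, map_natCast] at this
    exact_mod_cast this
  exact ⟨this⟩

theorem nu_rat' (D : SSF F Ω I r) (i : I) (q : ℚ) (hq : q ≠ 0) : D.nu i (q : Ω) = 1 := by
  have := charZeroF F Ω
  have h : ((q : ℚ) : Ω) = algebraMap F Ω (q : F) := by rw [map_ratCast]
  rw [h]
  exact D.F1 i _ (by exact_mod_cast hq)

/-- **part A of W+**: `x` is algebraic over `K` -/
theorem algw (hBIN : ST_BIN) (D : SSF F Ω I r) (J : Finset I) (β : ℝ) (x y d : Ω) (R : I → Ω)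
    (hβ : β < 1) (hJ : J.Nonempty) (xO : x ∈ D.O) (yO : y ∈ D.O) (hd : d ∈ D.K)
    (hE : y ^ 2 = x ^ 3 + d) (fx : ∀ i, i ∉ J → D.nu i x ≤ 1) (fy : ∀ i, i ∉ J → D.nu i y ≤ 1)
    (sd : ∀ i ∈ J, D.nu i d < Real.exp 6) (RR : ∀ i ∈ J, R i ∈ D.K)
    (s1 : ∀ i ∈ J, D.nu i (R i) = Real.exp 1) (s2 : ∀ i ∈ J, D.nu i (x - R i ^ 2) ≤ Real.exp β)
    (s4 : ∀ i ∈ J, D.nu i (y - R i ^ 3) < Real.exp 3) : IsIntegral D.K x := by
  classical
  by_contra hx
  have hE' : y ^ 2 = x ^ 3 + algebraMap D.K Ω ⟨d, hd⟩ := hE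
  -- the order
  obtain ⟨k, hk⟩ := exists_nat_gt (1 / (1 - β))
  have hβ1 : 0 < 1 - β := by linarith
  have hk0 : 1 ≤ k := by
    by_contra h
    have h0 : k = 0 := by omega
    rw [h0] at hk
    have : (0 : ℝ) < 1 / (1 - β) := by positivity
    push_cast at hk
    linarith
  have hkβ : 1 < k * (1 - β) := by
    rwa [div_lt_iff₀ hβ1] at hk
  set ρ : ℝ := Real.exp (1 - k * (1 - β)) with hρ
  have hρ0 : 0 < ρ := Real.exp_pos _
  have hρ1 : ρ < 1 := by
    rw [hρ, Real.exp_lt_one_iff]
    linarith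
  -- the forms
  have hF : ∀ i, ∃ G : Ω, i ∈ J → Mo D.K x y (k + 1) G ∧ D.nu i G ≤ ρ := by
    intro i
    by_cases hi : i ∈ J
    swap
    · exact ⟨0, fun h => absurd h hi⟩
    have hv := D.ult i
    have hq := nu_rat' D i
    have hR := s1 i hi
    have hR0 : R i ≠ 0 := by
      intro h
      rw [h, map_zero] at hR
      exact absurd hR (Real.exp_pos 1).ne
    have hRn : ∀ n : ℕ, D.nu i (R i ^ n) = Real.exp n := by
      intro n
      rw [map_pow, hR, ← Real.exp_nat_mul, mul_one]
    set x' : Ω := x / R i ^ 2 with hx'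
    set y' : Ω := y / R i ^ 3 with hy'
    set d' : Ω := d / R i ^ 6 with hd'
    have hE1 : y' ^ 2 = x' ^ 3 + d' := by
      rw [hx', hy', hd', div_pow, div_pow, hE]
      field_simp
    set θ : ℝ := Real.exp (β - 2) with hθ
    have hx1 : D.nu i (x' - 1) ≤ θ := by
      have h1 : x' - 1 = (x - R i ^ 2) / R i ^ 2 := by
        rw [hx']
        field_simp
      rw [h1, map_div₀, hRn, hθ, Real.exp_sub]
      push_cast
      exact div_le_div_of_nonneg_right (s2 i hi) (Real.exp_pos 2).le
    have hy1 : D.nu i (y' - 1) < 1 := by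
      have h1 : y' - 1 = (y - R i ^ 3) / R i ^ 3 := by
        rw [hy']
        field_simp
      rw [h1, map_div₀, hRn, div_lt_one (Real.exp_pos _)]
      push_cast
      exact s4 i hi
    have hd1 : D.nu i d' < 1 := by
      rw [hd', map_div₀, hRn, div_lt_one (Real.exp_pos _)]
      push_cast
      exact sd i hi
    obtain ⟨c, hcK, hc⟩ := locf1 (D.nu i) hv hq hBIN k hk0 θ (Real.exp_pos _)
      (by rw [hθ, Real.exp_lt_one_iff]; linarith) x' y' d' hE1 hx1 hd1 hy1
    have hsc : ∀ W, W ≠ 1 → em x y W = R i ^ W * em x' y' W := by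
      intro W hW
      have h1 : x = R i ^ 2 * x' := by rw [hx']; field_simp
      have h2 : y = R i ^ 3 * y' := by rw [hy']; field_simp
      unfold em
      by_cases h : Even W
      · rw [if_pos h, if_pos h, h1, mul_pow, ← pow_mul]
        congr 2
        obtain ⟨a, ha⟩ := h
        omega
      · rw [if_neg h, if_neg h]
        obtain ⟨a, ha⟩ := Nat.not_even_iff_odd.1 h
        have h3 : W = 2 * ((W - 3) / 2) + 3 := by omega
        conv_rhs => rw [h3, pow_add, pow_mul]
        have h4 : (2 * ((W - 3) / 2) + 3 - 3) / 2 = (W - 3) / 2 := by omega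
        rw [h4]
        conv_lhs => rw [h1, h2]
        rw [mul_pow]
        ring
    have hKR := RR i hi
    have hdK : d' ∈ D.K := D.K.div_mem hd (pow_mem hKR 6)
    have hpK : ∀ P : ℚ[X], aeval d' P ∈ D.K := by
      intro P
      have h1 : aeval d' P = ((aeval (⟨d', hdK⟩ : D.K) P : D.K) : Ω) := by
        have h2 := (aeval_algebraMap_apply Ω (⟨d', hdK⟩ : D.K) P)
        exact h2
      rw [h1]
      exact (aeval (⟨d', hdK⟩ : D.K) P).2
    have hcK' : ∀ j, c j ∈ D.K := by
      intro j
      obtain ⟨a, b, -, h⟩ := hcK j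
      rw [h]
      exact D.K.div_mem (hpK a) (hpK b)
    refine ⟨R i ^ (k + 1) * (em x' y' (k + 1) + ∑ j : Fin k, c j * em x' y' (wt j)), fun _ =>
      ⟨?_, ?_⟩⟩
    · unfold Mo
      have h1 : R i ^ (k + 1) * (em x' y' (k + 1) + ∑ j : Fin k, c j * em x' y' (wt j)) -
          em x y (k + 1) = ∑ j : Fin k, (c j * R i ^ (k + 1 - wt j)) * em x y (wt j) := by
        rw [mul_add, hsc (k + 1) (by omega), add_sub_cancel_left, Finset.mul_sum]
        refine Finset.sum_congr rfl fun j _ => ?_
        rw [hsc _ (wt_ne_one _)]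
        have h2 : wt j ≤ k + 1 := by
          have := j.2
          unfold wt
          split_ifs <;> omega
        have h3 : R i ^ (k + 1) = R i ^ (k + 1 - wt j) * R i ^ (wt j) := by
          rw [← pow_add]
          congr 1
          omega
        rw [h3]
        ring
      rw [h1]
      refine sum_mem fun j _ => ?_
      have h2 : wt j < k + 1 := by
        have := j.2
        unfold wt
        split_ifs <;> omega
      have h3 := Submodule.smul_mem (Fil D.K x y (k + 1))
        (⟨c j * R i ^ (k + 1 - wt j), D.K.mul_mem (hcK' j) (pow_mem hKR _)⟩ : D.K)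
        (em_mem h2 (wt_ne_one _))
      exact h3
    · rw [map_mul, hRn]
      calc Real.exp ((k + 1 : ℕ) : ℝ) * _ ≤ Real.exp ((k + 1 : ℕ) : ℝ) * θ ^ k :=
            mul_le_mul_of_nonneg_left hc (Real.exp_pos _).le
        _ = ρ := by
            rw [hθ, hρ, ← Real.exp_nat_mul, ← Real.exp_add]
            congr 1
            push_cast
            ring
  choose G hG using hF
  -- sizes of the monomials
  have hsx : ∀ i ∈ J, D.nu i x ≤ Real.exp 2 := by
    intro i hi
    have h1 : x = (x - R i ^ 2) + R i ^ 2 := by ring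
    rw [h1]
    refine (D.ult i _ _).trans (max_le ((s2 i hi).trans (Real.exp_le_exp.2 (by linarith))) ?_)
    rw [map_pow, s1 i hi, ← Real.exp_nat_mul, mul_one]
    exact le_rfl
  have hsy : ∀ i ∈ J, D.nu i y ≤ Real.exp 3 := by
    intro i hi
    have h1 : y = (y - R i ^ 3) + R i ^ 3 := by ring
    rw [h1]
    refine (D.ult i _ _).trans (max_le (s4 i hi).le ?_)
    rw [map_pow, s1 i hi, ← Real.exp_nat_mul, mul_one]
    exact le_rfl
  have hem : ∀ i ∈ J, ∀ W, W ≠ 1 → D.nu i (em x y W) ≤ Real.exp W := by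
    intro i hi W hW
    unfold em
    by_cases h : Even W
    · rw [if_pos h]
      refine (v_pow_le (hsx i hi) _).trans (le_of_eq ?_)
      rw [← Real.exp_nat_mul]
      congr 1
      obtain ⟨a, rfl⟩ := h
      have : (a + a) / 2 = a := by omega
      rw [this]
      push_cast
      ring
    · rw [if_neg h, map_mul]
      obtain ⟨a, ha⟩ := Nat.not_even_iff_odd.1 h
      calc D.nu i (x ^ ((W - 3) / 2)) * D.nu i y
          ≤ Real.exp 2 ^ ((W - 3) / 2) * Real.exp 3 :=
            mul_le_mul (v_pow_le (hsx i hi) _) (hsy i hi) ((D.nu i).nonneg _) (by positivity)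
        _ = Real.exp W := by
            rw [← Real.exp_nat_mul, ← Real.exp_add]
            congr 1
            have h3 : W = 2 * ((W - 3) / 2) + 3 := by omega
            have h4 : (W : ℝ) = 2 * (((W - 3) / 2 : ℕ) : ℝ) + 3 := by exact_mod_cast h3
            rw [h4]
            ring
  have hem1 : ∀ i, i ∉ J → ∀ W, D.nu i (em x y W) ≤ 1 := by
    intro i hi W
    unfold em
    split_ifs
    · have := v_pow_le (fx i hi) (W / 2)
      rwa [one_pow] at this
    · rw [map_mul]
      have h1 := v_pow_le (fx i hi) ((W - 3) / 2)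
      rw [one_pow] at h1
      calc D.nu i (x ^ ((W - 3) / 2)) * D.nu i y ≤ 1 * 1 :=
            mul_le_mul h1 (fy i hi) ((D.nu i).nonneg _) zero_le_one
        _ = 1 := one_mul 1
  have hemO : ∀ W, em x y W ∈ D.O := by
    intro W
    unfold em
    split_ifs
    · exact pow_mem xO _
    · exact D.O.mul_mem (pow_mem xO _) yO
  set w : ℕ := k + 1 with hw
  have hw2 : 2 ≤ w := by omega
  -- the bound
  set a : ℕ → ℝ := fun j => ρ ^ ql w (wt j) * Real.exp ((w + 1 : ℕ) : ℝ) with ha
  have ha0 : ∀ j, 0 < a j := fun j => by positivity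
  obtain ⟨l0, hl0⟩ := exists_pow_lt_of_lt_one
    (x := 1 / 2 / Real.exp ((w + 1 : ℕ) : ℝ)) (by positivity) hρ1
  have ha1 : ∀ j, (l0 + 1) * w ≤ j → a j ≤ 1 / 2 := by
    intro j hj
    have h1 : l0 ≤ ql w (wt j) := by
      refine le_trans ?_ ql_ge
      have h2 : j ≤ wt j := by
        unfold wt
        split_ifs <;> omega
      have h3 : l0 + 1 ≤ wt j / w := (Nat.le_div_iff_mul_le (by omega)).2 (hj.trans h2)
      generalize wt j / w = t at *
      omega
    have h2 : ρ ^ ql w (wt j) ≤ ρ ^ l0 := pow_le_pow_of_le_one hρ0.le hρ1.le h1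
    have h3 : ρ ^ ql w (wt j) ≤ 1 / 2 / Real.exp ((w + 1 : ℕ) : ℝ) := h2.trans hl0.le
    rwa [le_div_iff₀ (Real.exp_pos _)] at h3
  obtain ⟨N, hN⟩ := prod_small (fun j => (ha0 j).le) ha1
  -- GSK
  have key := gskP D (fun j : Fin N => em x y (wt j))
    (fun i j => if i ∈ J then G i ^ ql w (wt j) * em x y (rl w (wt j)) else em x y (wt j))
    (fun _ _ => 1) (fun _ j => (j : ℕ)) (fun j => hemO _) (em_indep hE' hx N)
    (fun i j => ⟨D.K.one_mem, one_ne_zero⟩) (by
      intro i j
      show (if i ∈ J then _ else _) - 1 * _ ∈ _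
      rw [one_mul]
      split_ifs with hi
      · have h1 : Mo D.K x y (ql w (wt j) * w + rl w (wt j))
            (G i ^ ql w (wt j) * em x y (rl w (wt j))) := by
          refine Mo_mul hE' ?_ (rl_ne hw2) (Mo_pow hE' hw2 (hG i hi).1 _) (Mo_em _)
          intro h
          have h1 : w ∣ 1 := ⟨ql w (wt j), by rw [← h]; ring⟩
          have := Nat.dvd_one.1 h1
          omega
        rw [ql_rl hw2 (wt_ne_one _)] at h1
        unfold Mo at h1
        refine Submodule.span_mono ?_ h1
        rintro _ ⟨V, hV, hV1, rfl⟩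
        have h2 : ∃ l, wt l = V := by
          unfold wt
          by_cases h0 : V = 0
          · exact ⟨0, by simp [h0]⟩
          · exact ⟨V - 1, by rw [if_neg (by omega)]; omega⟩
        obtain ⟨l, hl⟩ := h2
        have h3 : l < (j : ℕ) := by
          by_contra h
          rcases (not_lt.1 h).eq_or_lt with h4 | h4
          · rw [← hl, h4] at hV
            exact lt_irrefl _ hV
          · have := wt_lt h4
            omega
        refine ⟨⟨l, h3.trans j.2⟩, h3, ?_⟩
        show em x y (wt l) = _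
        rw [hl]
      · rw [sub_self]
        exact zero_mem _)
  have hprod : ∏ i, ∏ j : Fin N, D.nu i (if i ∈ J then G i ^ ql w (wt j) *
      em x y (rl w (wt j)) else em x y (wt j)) / D.nu i 1 < 1 := by
    have h1 : ∀ i, ∏ j : Fin N, D.nu i (if i ∈ J then G i ^ ql w (wt j) *
        em x y (rl w (wt j)) else em x y (wt j)) / D.nu i 1 ≤
        if i ∈ J then ∏ j ∈ Finset.range N, a j else 1 := by
      intro i
      split_ifs with hi
      · rw [← Fin.prod_univ_eq_prod_range]
        refine Finset.prod_le_prod (fun j _ => div_nonneg ((D.nu i).nonneg _)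
          ((D.nu i).nonneg _)) fun j _ => ?_
        rw [(D.nu i).map_one, div_one, map_mul, map_pow]
        refine mul_le_mul (pow_le_pow_left₀ ((D.nu i).nonneg _) (hG i hi).2 _) ?_
          ((D.nu i).nonneg _) (by positivity)
        refine (hem i hi _ (rl_ne hw2)).trans (Real.exp_le_exp.2 ?_)
        exact_mod_cast rl_le hw2
      · refine Finset.prod_le_one (fun j _ => div_nonneg ((D.nu i).nonneg _)
          ((D.nu i).nonneg _)) fun j _ => ?_
        rw [(D.nu i).map_one, div_one]
        exact hem1 i hi _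
    refine lt_of_le_of_lt (Finset.prod_le_prod (fun i _ => Finset.prod_nonneg fun j _ =>
      div_nonneg ((D.nu i).nonneg _) ((D.nu i).nonneg _)) (fun i _ => h1 i)) ?_
    have hP0 : 0 ≤ ∏ j ∈ Finset.range N, a j := Finset.prod_nonneg fun j _ => (ha0 j).le
    rw [Finset.prod_ite_mem, Finset.univ_inter, Finset.prod_const]
    exact pow_lt_one₀ hP0 hN (Finset.card_ne_zero.2 hJ)
  exact absurd key (not_le.2 hprod)

end

end Pool.Agent.Helper70.JN
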