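import Pool.Agent.Helper71.JN.SheetB

/-! Project JN, row LEAD: elimination of leading terms (helper70). -/

set_option autoImplicit false

namespace Pool.Agent.Helper70.JN

open Pool.Agent.Helper71.JN

theorem st_LEAD : ST_LEAD := by
  intro F V _ _ _ κ Γ _ T key b W h
  classical
  by_contra hcon
  push Not at hcon
  obtain ⟨a, haT, haW⟩ := hcon
  obtain ⟨c, hc, hmin⟩ := (T.filter (fun a => b a ∉ W)).exists_min_image key
    ⟨a, by simp [haT, haW]⟩
  simp only [Finset.mem_filter] at hc hmin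
  apply hc.2
  have h1 : W ⊔ Submodule.span F (b '' {d | d ∈ T ∧ key d < key c}) ≤ W := by
    refine sup_le le_rfl (Submodule.span_le.2 ?_)
    rintro _ ⟨d, ⟨hdT, hdk⟩, rfl⟩
    by_contra hd
    exact absurd (hmin d ⟨hdT, hd⟩) (not_le.2 hdk)
  exact h1 (h c hc.1)

end Pool.Agent.Helper70.JN
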