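import Pool.Agent.Helper71.JN.SheetE
import Pool.Agent.Helper70.JN.Algw

/-!
Project JN, sheet E, (ALGW): `x` is algebraic over `K` (from `BIN` with `n = 2` and the proved
`gskP`; no Padé approximation is needed).
-/

set_option autoImplicit false

theorem Pool.Agent.Helper70.JN.st_ALGW (hBIN : Pool.Agent.Helper71.JN.ST_BIN) :
    Pool.Agent.Helper71.JN.ST_ALGW := by
  intro F Ω _ _ _ _ I _ r D J α β x y R h
  refine Pool.Agent.Helper70.JN.algw hBIN D J β x y (y ^ 2 - x ^ 3) R h.hβ h.hJ h.xO h.yO h.dK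
    (by ring) h.fx h.fy ?_ h.RR h.s1 h.s2 h.s4
  intro i hi
  exact lt_of_le_of_lt (h.sd i hi) (Real.exp_lt_exp.2 (by linarith [h.hα]))

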