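import Pool.Agent.Helper71.JN.SheetF
import Pool.Agent.Helper77.JN.FINU

/-!
Project JN, sheet F, row FINS: the S-version of theorem W+ for a finitely generated group of
algebraic numbers.
-/

set_option autoImplicit false

namespace Pool.Agent.Helper70.JNS

open Polynomial Filter Finset Pool.Agent.Helper70.SUB Pool.Agent.Helper77.SUBK
  Pool.Agent.Helper70.SUBL Pool.Agent.Helper70.SUBW Pool.Agent.Helper71.JN Pool.Agent.Helper77.JN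

/-- each factor of `NS` is positive -/
theorem fac_pos (p : ℕ) (d : ℤ) (hp : p.Prime) (hd : d ≠ 0) :
    0 < ((padicNorm p (d : ℚ) : ℚ) : ℝ) ^ (5 / 6 : ℝ) := by
  have := Fact.mk hp
  have h1 : padicNorm p (d : ℚ) ≠ 0 := padicNorm.nonzero (by exact_mod_cast hd)
  have h2 : 0 < padicNorm p (d : ℚ) := lt_of_le_of_ne (padicNorm.nonneg _) (Ne.symm h1)
  exact Real.rpow_pos_of_pos (by exact_mod_cast h2) _

theorem fac_nonneg (p : ℕ) (d : ℤ) :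
    0 ≤ ((padicNorm p (d : ℚ) : ℚ) : ℝ) ^ (5 / 6 : ℝ) := by
  have h2 : 0 ≤ padicNorm p (d : ℚ) := padicNorm.nonneg _
  exact Real.rpow_nonneg (by exact_mod_cast h2) _

/-- each factor of `NS` is at most one -/
theorem fac_le (p : ℕ) (d : ℤ) (hp : p.Prime) :
    ((padicNorm p (d : ℚ) : ℚ) : ℝ) ^ (5 / 6 : ℝ) ≤ 1 := by
  have := Fact.mk hp
  have h1 : padicNorm p (d : ℚ) ≤ 1 := padicNorm.of_int d
  have h2 : 0 ≤ padicNorm p (d : ℚ) := padicNorm.nonneg _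
  exact Real.rpow_le_one (by exact_mod_cast h2) (by exact_mod_cast h1) (by norm_num)

/-- `NS` is positive -/
theorem NS_pos (S : Finset ℕ) (hS : ∀ p ∈ S, p.Prime) (d : ℤ) (hd : d ≠ 0) : 0 < NS S d := by
  unfold NS
  refine mul_pos (abs_pos.2 (by exact_mod_cast hd)) (Finset.prod_pos fun p hp => ?_)
  exact fac_pos p d (hS p hp) hd

/-- `NS` decreases when `S` grows -/
theorem NS_anti {S T : Finset ℕ} (hST : S ⊆ T) (hT : ∀ p ∈ T, p.Prime) (d : ℤ) :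
    NS T d ≤ NS S d := by
  unfold NS
  refine mul_le_mul_of_nonneg_left ?_ (abs_nonneg _)
  exact Finset.prod_le_prod_of_subset_of_le_one hST (fun p _ => fac_nonneg p d)
    (fun p hp _ => fac_le p d (hT p hp))

/-- (FINS) -/
theorem FINS (hT1S : ST_T1S) (hSVB : ST_SVB) : ST_FINS := by
  classical
  intro S₀ Γ t ε η B hS₀ hfg halg hε hη
  obtain ⟨M, iF, iN, iG, S₁, φ, ζ, hS₁, hζ, hΓ₁⟩ :=
    Helper45.SUBK.field_exists hSVB Γ hfg halg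
  obtain ⟨h1, h2, h3, h4, h5, h6, h7, h8, h9, h10, h11, h12⟩ := hSVB M
  have hS : ∀ p ∈ S₀ ∪ S₁, p.Prime := by
    intro p hp
    rcases Finset.mem_union.1 hp with hp | hp
    · exact hS₀ p hp
    · exact hS₁ p hp
  have hΓ : ∀ γ ∈ Γ, ∃ ρ : M, SV (S₀ ∪ S₁) ρ ∧ (φ ρ) ^ 6 = ((γ : ℂˣ) : ℂ) := by
    intro γ hγ
    obtain ⟨ρ, hρ, hρ'⟩ := hΓ₁ γ hγ
    exact ⟨ρ, (h3 S₁ (S₀ ∪ S₁) ρ Finset.subset_union_right).2 hρ, hρ'⟩
  obtain ⟨κ, hκ, C, hC⟩ := hT1S M (S₀ ∪ S₁) φ ζ t ε η B hS hζ hε hη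
  have hw : ∀ (H : ℝ) (z : ℂ), WSum Γ t H z → ∃ (c : Fin t → ℤ) (a : Fin t → M),
      (∀ i, SV (S₀ ∪ S₁) (a i)) ∧ (∀ i, |(c i : ℝ)| ≤ H) ∧ φ (∑ i, (c i : M) * a i) = z := by
    intro H z hz
    obtain ⟨c, γ, hγ, hc, hzs⟩ := hz
    choose ρ hρS hρ using fun i => hΓ (γ i) (hγ i)
    have e : φ (∑ i, (c i : M) * ρ i ^ (6 : ℤ)) = z := by
      rw [map_sum, hzs]
      refine Finset.sum_congr rfl fun i _ => ?_
      rw [map_mul, map_intCast, map_zpow₀, ← hρ i]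
      norm_cast
    exact ⟨c, fun i => ρ i ^ (6 : ℤ), fun i => h8 _ _ _ (hρS i), hc, e⟩
  have hs : ∀ (H H' : ℝ) (z : ℂ), Sparse Γ t H H' z → ∃ (c : Fin t → ℤ) (a : Fin t → M),
      (∀ i, SV (S₀ ∪ S₁) (a i)) ∧ (∀ i, |(c i : ℝ)| ≤ H) ∧ φ (∑ i, (c i : M) * a i) = z ∧
      HBZ φ H' (∑ i, (c i : M) * a i) := by
    intro H H' z hz
    obtain ⟨c, a, ha, hc, e⟩ := hw H z hz.1
    exact ⟨c, a, ha, hc, e, hbz_of φ e hz.2.1 hz.2.2⟩
  refine ⟨κ, hκ, C, ?_⟩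
  intro x y p q hp hq hq0 hd hxy hne
  obtain ⟨c, a, ha, hc, hpa, hpB⟩ := hs _ _ _ hp
  obtain ⟨d, b, hb, hd', hqb, hqB⟩ := hs _ _ _ hq
  obtain ⟨e, f, hf, he, hef⟩ := hw _ _ hd
  have hd0 : (y ^ 2 - x ^ 3 : ℤ) ≠ 0 := sub_ne_zero.2 hne
  have key : Real.log |(x : ℝ)| ≤
      (2 + ε) * Real.log (NS (S₀ ∪ S₁) (y ^ 2 - x ^ 3)) + C := by
    refine hC c d e a b f x y ha hb hf hc hd' he hpB hqB ?_ ?_ ?_ hne
    · intro h0
      exact hq0 (by rw [← hqb, h0, map_zero])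
    · refine φ.injective ?_
      rw [hef, map_intCast]
    · rw [map_div₀, hpa, hqb]
      exact hxy
  have hle : Real.log (NS (S₀ ∪ S₁) (y ^ 2 - x ^ 3)) ≤ Real.log (NS S₀ (y ^ 2 - x ^ 3)) :=
    Real.log_le_log (NS_pos _ hS _ hd0) (NS_anti Finset.subset_union_left hS _)
  have h0 : 0 ≤ 2 + ε := by linarith
  have := mul_le_mul_of_nonneg_left hle h0
  linarith

end Pool.Agent.Helper70.JNS

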