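import Pool.Agent.Helper70.JN.AsmV
import Pool.Agent.Helper70.JN.FINS
import Pool.Agent.Helper47.JN.HEARTS
import Pool.Agent.Helper77.JN.ZS
import Pool.Agent.Helper94.JN.T1S
import Pool.Agent.Helper71.JN.BRGS

/-! Assembly of project JN, sheet F: the S-version of theorem W+. -/

set_option autoImplicit false

namespace Pool.Agent.Helper71.JN

open Pool.Agent.Helper70.SUB Pool.Agent.Helper70.SUBL Pool.Agent.Helper77.SUBK
  Pool.Agent.Helper70.SUBW

theorem s_zs : ST_ZS := Pool.Agent.Helper77.JN.ZS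
theorem s_heart : ST_HEARTS := Pool.Agent.Helper47.JN.HEARTS v_bin u_spn j_prim s_zs
theorem s_brg : ST_BRGS := BRGS j_mong j_ssfx j_rdx j_omg j_osr s_heart w_slw
theorem s_t1s : ST_T1S := Pool.Agent.Helper94.JNS.T1S w_pfe w_slw w_spw u_sph s_brg
/-- theorem W+ with `|d| ∏ |d|_p ^ (5/6)` in place of `|d|` -/
theorem s_fin : ST_FINS := Pool.Agent.Helper70.JNS.FINS s_t1s k_svb

end Pool.Agent.Helper71.JN
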