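import Pool.Agent.Helper71.JN.AsmU
import Pool.Agent.Helper97.JN.BIN
import Pool.Agent.Helper70.JN.ALGW
import Pool.Agent.Helper47.JN.HEARTW
import Pool.Agent.Helper67.JN.BRGW
import Pool.Agent.Helper94.JN.T1V
import Pool.Agent.Helper77.JN.FINV

/-! Assembly of project JN, sheet E: theorem W+ and the weak form of Hall's conjecture. -/

set_option autoImplicit false

namespace Pool.Agent.Helper71.JN

open Pool.Agent.Helper70.SUB Pool.Agent.Helper70.SUBL Pool.Agent.Helper77.SUBK
  Pool.Agent.Helper70.SUBW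

theorem v_bin : ST_BIN := Pool.Agent.Helper97.JN.BIN
theorem v_algw : ST_ALGW := Pool.Agent.Helper70.JN.st_ALGW v_bin
theorem v_heart : ST_HEARTW := Pool.Agent.Helper47.JN.HEARTW v_algw u_spn j_prim
theorem v_brg : ST_BRGW :=
  Pool.Agent.Helper67.JN.BRGW j_mong j_ssfx j_rdx j_omg j_osr v_heart w_slw
theorem v_t1v : ST_T1V := Pool.Agent.Helper94.JN.T1V EXTW w_pfe w_slw w_spw u_sph v_brg
/-- theorem W+ -/
theorem v_fin : ST_FINV := Pool.Agent.Helper77.JN.FINV v_t1v k_svb
/-- the weak form of Hall's conjecture near sparse points of the cuspidal curve -/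
theorem v_weak : ST_WEAK := Pool.Agent.Helper77.JN.WEAK v_fin

end Pool.Agent.Helper71.JN

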