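import Pool.Agent.Helper71.JN.SheetC

/-! Theorem W+, part A, algebra: combinations of the monomials of weights `0, 2, .., k + 1` on a
curve close to the cuspidal cubic which vanish to the order `k` (helper70). -/

set_option autoImplicit false

namespace Pool.Agent.Helper70.JN

open Polynomial Pool.Agent.Helper71.JN

/-- the weights `0, 2, 3, ..` -/
def wt (j : ℕ) : ℕ := if j = 0 then 0 else j + 1

theorem wt_inj {i j : ℕ} (h : wt i = wt j) : i = j := by
  unfold wt at h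
  split_ifs at h <;> omega

theorem wt_ne_one (j : ℕ) : wt j ≠ 1 := by
  unfold wt
  split_ifs <;> omega

theorem wt_lt {i j : ℕ} (h : i < j) : wt i < wt j := by
  unfold wt
  split_ifs <;> omega

/-- the monomial of weight `W` in `x` (weight `2`) and `y` (weight `3`) -/
def em {A : Type*} [CommSemiring A] (x y : A) (W : ℕ) : A :=
  if Even W then x ^ (W / 2) else x ^ ((W - 3) / 2) * y

theorem em_map {A B : Type*} [CommSemiring A] [CommSemiring B] (f : A →+* B) (x y : A) (W : ℕ) :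
    f (em x y W) = em (f x) (f y) W := by
  unfold em
  split_ifs <;> simp

theorem em_sq {A : Type*} [CommRing A] (s : A) {W : ℕ} (hW : W ≠ 1) :
    em (s ^ 2) (s ^ 3) W = s ^ W := by
  unfold em
  split_ifs with h
  · obtain ⟨m, rfl⟩ := h
    rw [← pow_mul]
    congr 1
    omega
  · rw [← pow_mul, ← pow_add]
    congr 1
    have := Nat.not_even_iff_odd.1 h
    obtain ⟨m, rfl⟩ := this
    omega

/-- monomials with congruent arguments -/
theorem em_dvd {A : Type*} [CommRing A] (x y y' t : A) (h : t ∣ y - y') (W : ℕ) :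
    t ∣ em x y W - em x y' W := by
  unfold em
  split_ifs
  · simp
  · rw [← mul_sub]
    exact h.mul_left _

/-- the substitution `x = 1 + X`, `y = p (x ^ 3 + d - 1)` -/
noncomputable def VE {A : Type} [CommRing A] (d : A) : A[X] := (1 + X) ^ 3 + C d - 1

/-- the polynomial attached to the monomial of weight `W` -/
noncomputable def EE {A : Type} [CommRing A] [Algebra ℚ A] (p : ℚ[X]) (d : A) (W : ℕ) : A[X] :=
  em (1 + X) (aeval (VE d) p) W

/-- the case `d = 0`: no combination of the weights `0, 2, .., k` vanishes to the order `k` -/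
theorem cusp0 (k K : ℕ) (hk : 1 ≤ k) (hK : k ≤ K) (p u : ℚ[X]) (hp0 : p.coeff 0 = 1)
    (hpu : p ^ 2 - (1 + X) = X ^ K * u) (v : Fin k → ℚ)
    (hv : X ^ k ∣ ∑ j : Fin k, C (v j) * EE p (0 : ℚ) (wt j)) : v = 0 := by
  -- substitution `X = 2 t + t ^ 2`
  set T : ℚ[X] := (1 + X) ^ 2 - 1 with hT
  have hT1 : (1 + X : ℚ[X]).comp T = (1 + X) ^ 2 := by
    rw [add_comp, one_comp, X_comp, hT]
    ring
  have hXT : (X : ℚ[X]) ∣ T := ⟨X + 2, by rw [hT]; ring⟩
  set Z : ℚ[X] := (aeval (VE (0 : ℚ)) p).comp T with hZ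
  have hZp : Z = p.comp ((VE (0 : ℚ)).comp T) := by
    rw [hZ, ← comp_eq_aeval, comp_assoc]
  have hVT : (VE (0 : ℚ)).comp T = (1 + X) ^ 6 - 1 := by
    unfold VE
    rw [C_0, add_zero, sub_comp, pow_comp, hT1, one_comp]
    ring
  have hXV : (X : ℚ[X]) ∣ (1 + X) ^ 6 - 1 := by
    refine ⟨X ^ 5 + 6 * X ^ 4 + 15 * X ^ 3 + 20 * X ^ 2 + 15 * X + 6, ?_⟩
    ring
  have hZ2 : (X : ℚ[X]) ^ K ∣ (Z - (1 + X) ^ 3) * (Z + (1 + X) ^ 3) := by
    have h1 : (p ^ 2 - (1 + X)).comp ((VE (0 : ℚ)).comp T) =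
        (Z - (1 + X) ^ 3) * (Z + (1 + X) ^ 3) := by
      rw [sub_comp, pow_comp, ← hZp, add_comp, one_comp, X_comp, hVT]
      ring
    rw [← h1, hpu, mul_comp, pow_comp, X_comp, hVT]
    exact (pow_dvd_pow_of_dvd hXV K).mul_right _
  have hZ0 : ¬ (X : ℚ[X]) ∣ Z + (1 + X) ^ 3 := by
    rw [X_dvd_iff]
    have h1 : (Z + (1 + X) ^ 3).coeff 0 = 2 := by
      rw [coeff_zero_eq_eval_zero, eval_add, hZp, hVT, eval_comp]
      have h2 : eval 0 ((1 + X : ℚ[X]) ^ 6 - 1) = 0 := by simp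
      rw [h2, ← coeff_zero_eq_eval_zero, hp0]
      simp
      norm_num
    rw [h1]
    norm_num
  have hZd : (X : ℚ[X]) ^ k ∣ Z - (1 + X) ^ 3 :=
    (pow_dvd_pow X hK).trans ((prime_X).pow_dvd_of_dvd_mul_right K hZ0 hZ2)
  -- the polynomial in `t`
  have hE : ∀ W : ℕ, W ≠ 1 → (X : ℚ[X]) ^ k ∣ (EE p (0 : ℚ) W).comp T - (1 + X) ^ W := by
    intro W hW
    have h1 : (EE p (0 : ℚ) W).comp T = em ((1 + X) ^ 2) Z W := by
      unfold EE
      have := em_map (compRingHom T) (1 + X : ℚ[X]) (aeval (VE (0 : ℚ)) p) W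
      simp only [coe_compRingHom_apply] at this
      rw [this, hT1]
    rw [h1, ← em_sq (1 + X : ℚ[X]) hW]
    exact em_dvd _ _ _ _ hZd W
  have hG : (X : ℚ[X]) ^ k ∣ ∑ j : Fin k, C (v j) * (1 + X) ^ (wt j) := by
    have h1 : (X : ℚ[X]) ^ k ∣ (∑ j : Fin k, C (v j) * EE p (0 : ℚ) (wt j)).comp T := by
      obtain ⟨q, hq⟩ := hv
      rw [hq, mul_comp, pow_comp, X_comp]
      exact (pow_dvd_pow_of_dvd hXT k).mul_right _
    have h2 : (X : ℚ[X]) ^ k ∣ (∑ j : Fin k, C (v j) * EE p (0 : ℚ) (wt j)).comp T -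
        ∑ j : Fin k, C (v j) * (1 + X) ^ (wt j) := by
      rw [sum_comp, ← Finset.sum_sub_distrib]
      refine Finset.dvd_sum fun j _ => ?_
      rw [mul_comp, C_comp, ← mul_sub]
      exact (hE _ (wt_ne_one _)).mul_left _
    have h3 := (dvd_sub_right h1).1 h2
    exact h3
  -- degree
  obtain ⟨q, hq⟩ := hG
  have hdeg : (∑ j : Fin k, C (v j) * (1 + X : ℚ[X]) ^ (wt j)).natDegree ≤ k := by
    refine natDegree_sum_le_of_forall_le _ _ fun j _ => ?_
    refine (natDegree_C_mul_le _ _).trans ?_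
    have h1 : (1 + X : ℚ[X]).natDegree = 1 := by
      have := natDegree_X_add_C (1 : ℚ)
      rwa [C_1, add_comm] at this
    rw [natDegree_pow, h1, mul_one]
    have h2 := j.2
    unfold wt
    split_ifs <;> omega
  have hqc : ∃ c : ℚ, q = C c := by
    by_cases h0 : q = 0
    · exact ⟨0, by rw [h0, C_0]⟩
    · rw [hq, natDegree_mul (pow_ne_zero _ X_ne_zero) h0, natDegree_X_pow] at hdeg
      exact ⟨q.coeff 0, eq_C_of_natDegree_eq_zero (by omega)⟩
  obtain ⟨c, hc⟩ := hqc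
  have hs : ∑ j : Fin k, C (v j) * (X : ℚ[X]) ^ (wt j) = (X - 1) ^ k * C c := by
    have h1 := congrArg (fun P : ℚ[X] => P.comp (X - 1)) hq
    simp only [sum_comp, mul_comp, C_comp, pow_comp, add_comp, one_comp, X_comp] at h1
    rw [hc, C_comp] at h1
    rw [← h1]
    refine Finset.sum_congr rfl fun j _ => ?_
    congr 2
    ring
  have hc0 : c = 0 := by
    have h1 := congrArg (fun P : ℚ[X] => P.coeff 1) hs
    simp only [finsetSum_coeff, coeff_C_mul, coeff_X_pow, coeff_mul_C] at h1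
    have h2 : ∑ j : Fin k, v j * (if 1 = wt (j : ℕ) then (1 : ℚ) else 0) = 0 := by
      refine Finset.sum_eq_zero fun j _ => ?_
      rw [if_neg (fun h => wt_ne_one _ h.symm), mul_zero]
    rw [h2] at h1
    have h3 : ((X - 1 : ℚ[X]) ^ k).coeff 1 = k * (-1) ^ (k - 1) := by
      have h4 : (X - 1 : ℚ[X]) = X + C (-1) := by rw [C_neg, C_1]; ring
      rw [h4, coeff_X_add_C_pow]
      rw [Nat.choose_one_right]
      ring
    rw [h3] at h1
    have h5 : (k : ℚ) * (-1) ^ (k - 1) ≠ 0 :=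
      mul_ne_zero (by exact_mod_cast (by omega : k ≠ 0)) (pow_ne_zero _ (by norm_num))
    rcases mul_eq_zero.1 h1.symm with h | h
    · exact absurd h h5
    · exact h
  funext j
  have h1 := congrArg (fun P : ℚ[X] => P.coeff (wt j)) hs
  rw [hc0, C_0, mul_zero] at h1
  simp only [finsetSum_coeff, coeff_C_mul, coeff_X_pow, coeff_zero] at h1
  rw [Finset.sum_eq_single j] at h1
  · simpa using h1
  · intro i _ hij
    rw [if_neg, mul_zero]
    intro h
    exact hij (Fin.ext (wt_inj h).symm)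
  · intro h
    exact absurd (Finset.mem_univ j) h

/-- **the algebraic part**: over `ℚ[d]` some combination vanishes to the order `k`, and the
coefficient of the monomial of weight `k + 1` is a unit at `d = 0` -/
theorem cusp (k K : ℕ) (hk : 1 ≤ k) (hK : k ≤ K) (p u : ℚ[X]) (hp0 : p.coeff 0 = 1)
    (hpu : p ^ 2 - (1 + X) = X ^ K * u) :
    ∃ (c : Fin k → ℚ[X]) (e : ℚ[X]), e.coeff 0 ≠ 0 ∧
      X ^ k ∣ ∑ j : Fin k, C (c j) * EE p (X : ℚ[X]) (wt j) + C e * EE p (X : ℚ[X]) (k + 1) := by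
  classical
  set M : Matrix (Fin k) (Fin k) ℚ[X] := fun l j => (EE p (X : ℚ[X]) (wt j)).coeff l with hM
  set b : Fin k → ℚ[X] := fun l => (EE p (X : ℚ[X]) (k + 1)).coeff l with hb
  refine ⟨-(M.adjugate.mulVec b), M.det, ?_, ?_⟩
  · intro h0
    set f : ℚ[X] →+* ℚ := evalRingHom 0 with hf
    have h1 : (M.map f).det = 0 := by
      rw [← RingHom.mapMatrix_apply, ← RingHom.map_det]
      show eval 0 M.det = 0
      rw [← coeff_zero_eq_eval_zero]
      exact h0
    obtain ⟨v, hv0, hv⟩ := Matrix.exists_mulVec_eq_zero_iff.2 h1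
    apply hv0
    refine cusp0 k K hk hK p u hp0 hpu v ?_
    have hmap : ∀ W, (EE p (X : ℚ[X]) W).map f = EE p (0 : ℚ) W := by
      intro W
      unfold EE
      have h2 := em_map (mapRingHom f) (1 + X : ℚ[X][X]) (aeval (VE (X : ℚ[X])) p) W
      simp only [coe_mapRingHom] at h2
      have h4 : (VE (X : ℚ[X])).map f = VE (0 : ℚ) := by
        unfold VE
        simp [hf]
      have h3 : (aeval (VE (X : ℚ[X])) p).map f = aeval (VE (0 : ℚ)) p := by
        rw [← h4, aeval_def, aeval_def, ← coe_mapRingHom, hom_eval₂]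
        congr 1
        ext q
        simp [hf]
      rw [h2, h3]
      simp
    rw [X_pow_dvd_iff]
    intro l hl
    have h2 : ∑ j : Fin k, f (M ⟨l, hl⟩ j) * v j = 0 := congrFun hv ⟨l, hl⟩
    rw [finsetSum_coeff]
    refine Eq.trans (Finset.sum_congr rfl fun j _ => ?_) h2
    rw [coeff_C_mul, ← hmap, coeff_map, mul_comm]
  · rw [X_pow_dvd_iff]
    intro l hl
    rw [coeff_add, finsetSum_coeff, coeff_C_mul]
    have h1 : ∑ j : Fin k, (C ((-(M.adjugate.mulVec b)) j) * EE p (X : ℚ[X]) (wt j)).coeff l =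
        (M.mulVec (-(M.adjugate.mulVec b))) ⟨l, hl⟩ := by
      simp only [Matrix.mulVec, dotProduct]
      refine Finset.sum_congr rfl fun j _ => ?_
      rw [coeff_C_mul, mul_comm]
    rw [h1, Matrix.mulVec_neg, Matrix.mulVec_mulVec, Matrix.mul_adjugate, Matrix.smul_mulVec,
      Matrix.one_mulVec]
    simp [hb]

end Pool.Agent.Helper70.JN
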