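import Pool.Agent.Helper47.JN.RK

/-! Project JN, part of row PRIM: the primitive multiple of the minimal polynomial (helper70). -/

set_option autoImplicit false

namespace Pool.Agent.Helper70.JN

open Pool.Agent.Helper71.JN Pool.Agent.Helper47.JN Polynomial

section
variable {F Ω : Type} [Field F] [Field Ω] [Algebra F Ω] {I : Type} [Fintype I] {r : ℕ}

/-- the primitive multiple of the minimal polynomial -/
theorem gaussP (D : SSF F Ω I r) (z : Ω) (hz : IsIntegral D.K z) :
    ∃ p : Polynomial (MvPolynomial (Fin r) F), p ≠ 0 ∧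
      p.natDegree = (minpoly D.K z).natDegree ∧
      (∀ k, D.ev (p.coeff k) = D.ev p.leadingCoeff * (((minpoly D.K z).coeff k : D.K) : Ω)) ∧
      p.eval₂ (D.ev : MvPolynomial (Fin r) F →+* Ω) z = 0 ∧
      ∀ Q : Polynomial (MvPolynomial (Fin r) F),
        Q.eval₂ (D.ev : MvPolynomial (Fin r) F →+* Ω) z = 0 → p ∣ Q := by
  classical
  let evK : MvPolynomial (Fin r) F →+* D.K :=
    (D.ev : MvPolynomial (Fin r) F →+* Ω).codRestrict D.K (fun q => R_le_K D _ (ev_mem D q))
  let i1 : Algebra (MvPolynomial (Fin r) F) D.K := evK.toAlgebra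
  have hal : ∀ q : MvPolynomial (Fin r) F,
      ((algebraMap (MvPolynomial (Fin r) F) D.K q : D.K) : Ω) = D.ev q := fun _ => rfl
  have hinj : Function.Injective (algebraMap (MvPolynomial (Fin r) F) D.K) := by
    intro a b h
    apply ev_inj D
    rw [← hal, ← hal, h]
  have hfr : IsFractionRing (MvPolynomial (Fin r) F) D.K := by
    rw [IsFractionRing, isLocalization_iff]
    refine ⟨?_, ?_, ?_⟩
    · intro y
      rw [isUnit_iff_ne_zero]
      intro h0
      have h1 : (y : MvPolynomial (Fin r) F) = 0 := hinj (by rw [h0, map_zero])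
      exact nonZeroDivisors.ne_zero y.2 h1
    · intro x
      obtain ⟨a, b, hb, hab⟩ := K_form D x.1 x.2
      refine ⟨(a, ⟨b, mem_nonZeroDivisors_of_ne_zero hb⟩), Subtype.ext ?_⟩
      show (x : Ω) * D.ev b = D.ev a
      rw [hab, div_mul_cancel₀ _ (ev_ne D b hb)]
    · intro a b h
      exact ⟨1, by rw [hinj h]⟩
  let : StrongNormalizationMonoid (MvPolynomial (Fin r) F) :=
    UniqueFactorizationMonoid.strongNormalizationMonoid
  let : NormalizedGCDMonoid (MvPolynomial (Fin r) F) :=
    UniqueFactorizationMonoid.toNormalizedGCDMonoid _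
  have hmuI : IsIntegral D.K z := hz
  set μ := minpoly D.K z with hμ
  have hμm : μ.Monic := minpoly.monic hmuI
  obtain ⟨b, hbm, hb⟩ := IsLocalization.integerNormalization_spec
    (nonZeroDivisors (MvPolynomial (Fin r) F)) μ
  set P0 := IsLocalization.integerNormalization (nonZeroDivisors (MvPolynomial (Fin r) F)) μ
    with hP0
  have hb0 : b ≠ 0 := nonZeroDivisors.ne_zero hbm
  have hP00 : P0 ≠ 0 := by
    rw [hP0, Ne, IsLocalization.integerNormalization_eq_zero_iff le_rfl]
    exact hμm.ne_zero
  have hc0 : P0.content ≠ 0 := by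
    rwa [Ne, Polynomial.content_eq_zero_iff]
  set p := P0.primPart with hp
  have hpp : p.IsPrimitive := Polynomial.isPrimitive_primPart _
  set al := algebraMap (MvPolynomial (Fin r) F) D.K with hal'
  set u : D.K := al b / al P0.content with hu
  have hu0 : u ≠ 0 := div_ne_zero (by
    intro h
    exact hb0 (hinj (by rw [map_zero]; exact h))) (by
    intro h
    exact hc0 (hinj (by rw [map_zero]; exact h)))
  have hmap : p.map al = C u * μ := by
    have h1 : P0.map al = C (al P0.content) * p.map al := by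
      conv_lhs => rw [P0.eq_C_content_mul_primPart]
      rw [Polynomial.map_mul, Polynomial.map_C]
    have h2 : P0.map al = C (al b) * μ := by
      rw [hb, Algebra.smul_def]
      rfl
    have h3 : al P0.content ≠ 0 := by
      intro h
      exact hc0 (hinj (by rw [map_zero]; exact h))
    rw [h1] at h2
    have h4 : C (al P0.content) * (p.map al) = C (al P0.content) * (C u * μ) := by
      rw [h2, ← mul_assoc, ← C_mul, hu, mul_div_cancel₀ _ h3]
    exact mul_left_cancel₀ (by simpa using h3) h4
  have hcoef : ∀ k, al (p.coeff k) = u * μ.coeff k := by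
    intro k
    rw [← Polynomial.coeff_map, hmap, Polynomial.coeff_C_mul]
  have hdeg : p.natDegree = μ.natDegree := by
    rw [← Polynomial.natDegree_map_eq_of_injective hinj, hmap,
      Polynomial.natDegree_C_mul hu0]
  have hlead : al p.leadingCoeff = u := by
    rw [Polynomial.leadingCoeff, hcoef, hdeg]
    have : μ.coeff μ.natDegree = 1 := hμm
    rw [this, mul_one]
  have heval : ∀ Q : Polynomial (MvPolynomial (Fin r) F),
      Q.eval₂ (D.ev : MvPolynomial (Fin r) F →+* Ω) z = aeval z (Q.map al) := by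
    intro Q
    rw [Polynomial.aeval_def, Polynomial.eval₂_map]
    rfl
  refine ⟨p, hpp.ne_zero, hdeg, ?_, ?_, ?_⟩
  · intro k
    rw [← hal, ← hal]
    show ((al (p.coeff k) : D.K) : Ω) = ((al p.leadingCoeff : D.K) : Ω) * ((μ.coeff k : D.K) : Ω)
    rw [hcoef, hlead]
    rfl
  · rw [heval, hmap, map_mul, hμ, minpoly.aeval, mul_zero]
  · intro Q hQ
    rw [heval] at hQ
    apply hpp.dvd_of_fraction_map_dvd_fraction_map (K := D.K)
    show p.map al ∣ Q.map al
    rw [hmap]
    have h1 := minpoly.dvd D.K z hQ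
    have h2 : IsUnit (C u : Polynomial D.K) := (Polynomial.isUnit_C).2 (isUnit_iff_ne_zero.2 hu0)
    exact (h2.mul_left_dvd).2 h1

end

end Pool.Agent.Helper70.JN
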